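import Pool.Agent.Helper37.SN.Stmts

set_option autoImplicit false

namespace Pool.Agent.Helper37.SN

open MeasureTheory Finset
open scoped ENNReal Classical

theorem lq_haar1 : haar1 = (volume : Measure UnitAddCircle) := by
  have h := AddCircle.volume_eq_smul_haarAddCircle (T := (1 : ℝ))
  rw [ENNReal.ofReal_one, one_smul] at h
  unfold haar1
  exact h.symm

theorem lq_ball (x : UnitAddCircle) (ε : ℝ) :
    haar1 (Metric.closedBall x ε) ≤ ENNReal.ofReal (2 * ε) := by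
  rw [lq_haar1, AddCircle.volume_closedBall]
  exact ENNReal.ofReal_le_ofReal (min_le_right _ _)

theorem lq_bmp (h1 : ST_BMP) {a : ℝ} {W : ℝ → ℝ} (hW : Adm 0 a W) {σ : ℕ} (hσ : 3 ≤ σ)
    (x t : UnitAddCircle) :
    |bmp W σ x t| ≤ a * (Metric.closedBall x (2 / 2 ^ σ)).indicator (fun _ => (1 : ℝ)) t := by
  obtain ⟨hc, h0, hb⟩ := hW
  have hcW : Continuous W := hc.continuous
  obtain ⟨_, hz⟩ := h1 W σ x hσ hcW h0
  by_cases ht : t ∈ Metric.closedBall x (2 / 2 ^ σ)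
  · rw [Set.indicator_of_mem ht, mul_one]
    have := hb 0 le_rfl (2 ^ σ * rep (t - x))
    rw [iteratedDeriv_zero] at this
    exact this
  · rw [Set.indicator_of_notMem ht, mul_zero]
    have h2 : 2 / 2 ^ σ ≤ ‖t - x‖ := by
      rw [Metric.mem_closedBall, dist_eq_norm, not_le] at ht
      exact ht.le
    rw [hz t h2, abs_zero]

theorem lq_nonneg {a : ℝ} {W : ℝ → ℝ} (hW : Adm 0 a W) : 0 ≤ a := by
  obtain ⟨_, _, hb⟩ := hW
  exact le_trans (abs_nonneg _) (hb 0 le_rfl 0)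

theorem st_LQ (h1 : ST_BMP) (h2 : ST_PROJ) (_h3 : ST_REP) : ST_LQ := by
  intro q hq
  refine ⟨16, by norm_num, ?_⟩
  intro e a₁ a₂ W₁ W₂ σ₁ σ₂ x₁ x₂ hW₁ hW₂ hσ₁ hσ₂
  have hq0 : 0 < q := by linarith
  have ha₁ := lq_nonneg hW₁
  have ha₂ := lq_nonneg hW₂
  have hp0 : ENNReal.ofReal q ≠ 0 := by
    rw [Ne, ENNReal.ofReal_eq_zero, not_le]; exact hq0
  have hpt : ENNReal.ofReal q ≠ ⊤ := ENNReal.ofReal_ne_top
  rw [eLpNorm_eq_lintegral_rpow_enorm_toReal hp0 hpt, ENNReal.toReal_ofReal hq0.le]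
  set S₁ := Metric.closedBall x₁ (2 / 2 ^ σ₁) with hS₁
  set S₂ := Metric.closedBall x₂ (2 / 2 ^ σ₂) with hS₂
  have hm₁ : MeasurableSet S₁ := Metric.isClosed_closedBall.measurableSet
  have hm₂ : MeasurableSet S₂ := Metric.isClosed_closedBall.measurableSet
  let G : UnitAddCircle → UnitAddCircle → ℝ≥0∞ := fun s t => ENNReal.ofReal ((a₁ * a₂) ^ q) *
        (S₁.indicator (fun _ => (1 : ℝ≥0∞)) s * S₂.indicator (fun _ => (1 : ℝ≥0∞)) t)
  -- pointwise bound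
  have hpt1 : ∀ x : TT (e + 2),
      ‖(ten (bmp W₁ σ₁ x₁) (bmp W₂ σ₂ x₂) : TT (e + 2) → ℝ) x‖ₑ ^ q ≤ G (x 0) (x 1) := by
    intro x
    change _ ≤ ENNReal.ofReal ((a₁ * a₂) ^ q) *
        (S₁.indicator (fun _ => (1 : ℝ≥0∞)) (x 0) * S₂.indicator (fun _ => (1 : ℝ≥0∞)) (x 1))
    have b1 := lq_bmp h1 hW₁ hσ₁ x₁ (x 0)
    have b2 := lq_bmp h1 hW₂ hσ₂ x₂ (x 1)
    rw [← hS₁] at b1
    rw [← hS₂] at b2
    simp only [ten]
    by_cases m1 : x 0 ∈ S₁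
    · by_cases m2 : x 1 ∈ S₂
      · rw [Set.indicator_of_mem m1, mul_one] at b1
        rw [Set.indicator_of_mem m2, mul_one] at b2
        rw [Set.indicator_of_mem m1, Set.indicator_of_mem m2, mul_one, mul_one]
        have h3 : ‖bmp W₁ σ₁ x₁ (x 0) * bmp W₂ σ₂ x₂ (x 1)‖ₑ ≤ ENNReal.ofReal (a₁ * a₂) := by
          rw [Real.enorm_eq_ofReal_abs, abs_mul]
          exact ENNReal.ofReal_le_ofReal (mul_le_mul b1 b2 (abs_nonneg _) ha₁)
        calc ‖bmp W₁ σ₁ x₁ (x 0) * bmp W₂ σ₂ x₂ (x 1)‖ₑ ^ q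
            ≤ ENNReal.ofReal (a₁ * a₂) ^ q := ENNReal.rpow_le_rpow h3 hq0.le
          _ = ENNReal.ofReal ((a₁ * a₂) ^ q) :=
            ENNReal.ofReal_rpow_of_nonneg (mul_nonneg ha₁ ha₂) hq0.le
      · rw [Set.indicator_of_notMem m2, mul_zero] at b2
        have : bmp W₂ σ₂ x₂ (x 1) = 0 := abs_eq_zero.1 (le_antisymm b2 (abs_nonneg _))
        rw [this, mul_zero, enorm_zero, ENNReal.zero_rpow_of_pos hq0]
        exact bot_le
    · rw [Set.indicator_of_notMem m1, mul_zero] at b1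
      have : bmp W₁ σ₁ x₁ (x 0) = 0 := abs_eq_zero.1 (le_antisymm b1 (abs_nonneg _))
      rw [this, zero_mul, enorm_zero, ENNReal.zero_rpow_of_pos hq0]
      exact bot_le
  have hmeas : Measurable (fun z : P2 => G z.1 z.2) := by
    apply Measurable.const_mul
    apply Measurable.mul
    · exact (measurable_const.indicator hm₁).comp measurable_fst
    · exact (measurable_const.indicator hm₂).comp measurable_snd
  have hint : ∫⁻ x : TT (e + 2),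
      ‖(ten (bmp W₁ σ₁ x₁) (bmp W₂ σ₂ x₂) : TT (e + 2) → ℝ) x‖ₑ ^ q ∂haar (e + 2) ≤
      ENNReal.ofReal ((a₁ * a₂) ^ q * (16 * (2 : ℝ) ^ (-((σ₁ : ℝ) + σ₂)))) := by
    refine le_trans (lintegral_mono hpt1) ?_
    rw [h2 e G hmeas]
    have e1 : ∀ s : UnitAddCircle, ∫⁻ t, ENNReal.ofReal ((a₁ * a₂) ^ q) *
        (S₁.indicator (fun _ => (1 : ℝ≥0∞)) s * S₂.indicator (fun _ => (1 : ℝ≥0∞)) t) ∂haar1 =
        (ENNReal.ofReal ((a₁ * a₂) ^ q) * haar1 S₂) * S₁.indicator (fun _ => (1 : ℝ≥0∞)) s := by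
      intro s
      rw [lintegral_const_mul _ (Measurable.const_mul (measurable_const.indicator hm₂) _),
        lintegral_const_mul _ (measurable_const.indicator hm₂),
        lintegral_indicator_const hm₂, one_mul]
      ring
    simp only [G, e1]
    rw [lintegral_const_mul _ (measurable_const.indicator hm₁), lintegral_indicator_const hm₁,
      one_mul]
    have b1 : haar1 S₁ ≤ ENNReal.ofReal (2 * (2 / 2 ^ σ₁)) := lq_ball _ _
    have b2 : haar1 S₂ ≤ ENNReal.ofReal (2 * (2 / 2 ^ σ₂)) := lq_ball _ _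
    have hA : 0 ≤ (a₁ * a₂) ^ q := Real.rpow_nonneg (mul_nonneg ha₁ ha₂) q
    calc ENNReal.ofReal ((a₁ * a₂) ^ q) * haar1 S₂ * haar1 S₁
        ≤ ENNReal.ofReal ((a₁ * a₂) ^ q) * ENNReal.ofReal (2 * (2 / 2 ^ σ₂)) *
          ENNReal.ofReal (2 * (2 / 2 ^ σ₁)) := by gcongr
      _ = ENNReal.ofReal ((a₁ * a₂) ^ q * (2 * (2 / 2 ^ σ₂)) * (2 * (2 / 2 ^ σ₁))) := by
          rw [ENNReal.ofReal_mul (p := (a₁ * a₂) ^ q * (2 * (2 / 2 ^ σ₂)))
            (mul_nonneg hA (by positivity)), ENNReal.ofReal_mul (p := (a₁ * a₂) ^ q) hA]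
      _ = ENNReal.ofReal ((a₁ * a₂) ^ q * (16 * (2 : ℝ) ^ (-((σ₁ : ℝ) + σ₂)))) := by
          congr 1
          rw [Real.rpow_neg (by norm_num), Real.rpow_add (by norm_num), Real.rpow_natCast,
            Real.rpow_natCast]
          field_simp
          ring
  have hA : 0 ≤ a₁ * a₂ := mul_nonneg ha₁ ha₂
  have hT : 0 ≤ (2 : ℝ) ^ (-((σ₁ : ℝ) + σ₂)) := Real.rpow_nonneg (by norm_num) _
  calc (∫⁻ x : TT (e + 2),
      ‖(ten (bmp W₁ σ₁ x₁) (bmp W₂ σ₂ x₂) : TT (e + 2) → ℝ) x‖ₑ ^ q ∂haar (e + 2)) ^ (1 / q)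
      ≤ (ENNReal.ofReal ((a₁ * a₂) ^ q * (16 * (2 : ℝ) ^ (-((σ₁ : ℝ) + σ₂))))) ^ (1 / q) :=
        ENNReal.rpow_le_rpow hint (by positivity)
    _ = ENNReal.ofReal (((a₁ * a₂) ^ q * (16 * (2 : ℝ) ^ (-((σ₁ : ℝ) + σ₂)))) ^ (1 / q)) :=
        ENNReal.ofReal_rpow_of_nonneg
          (mul_nonneg (Real.rpow_nonneg hA q) (mul_nonneg (by norm_num) hT)) (by positivity)
    _ ≤ ENNReal.ofReal (16 * a₁ * a₂ * (2 : ℝ) ^ (-(((σ₁ : ℝ) + σ₂) / q))) := by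
        apply ENNReal.ofReal_le_ofReal
        rw [Real.mul_rpow (Real.rpow_nonneg hA q) (mul_nonneg (by norm_num) hT),
          Real.mul_rpow (by norm_num) hT, ← Real.rpow_mul hA, mul_one_div, div_self hq0.ne',
          Real.rpow_one, ← Real.rpow_mul (by norm_num : (0 : ℝ) ≤ 2)]
        have e3 : -((σ₁ : ℝ) + σ₂) * (1 / q) = -(((σ₁ : ℝ) + σ₂) / q) := by ring
        rw [e3]
        have e4 : (16 : ℝ) ^ (1 / q) ≤ 16 := by
          calc (16 : ℝ) ^ (1 / q) ≤ (16 : ℝ) ^ (1 : ℝ) := by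
                apply Real.rpow_le_rpow_of_exponent_le (by norm_num)
                rw [div_le_one hq0]; exact hq
            _ = 16 := Real.rpow_one _
        have hR : 0 ≤ (2 : ℝ) ^ (-(((σ₁ : ℝ) + σ₂) / q)) := Real.rpow_nonneg (by norm_num) _
        calc a₁ * a₂ * ((16 : ℝ) ^ (1 / q) * (2 : ℝ) ^ (-(((σ₁ : ℝ) + σ₂) / q)))
            ≤ a₁ * a₂ * (16 * (2 : ℝ) ^ (-(((σ₁ : ℝ) + σ₂) / q))) := by gcongr
          _ = 16 * a₁ * a₂ * (2 : ℝ) ^ (-(((σ₁ : ℝ) + σ₂) / q)) := by ring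

end Pool.Agent.Helper37.SN
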