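import Pool.Agent.Helper14.BSC.TopKb
import Pool.Agent.Helper84.BSC.EXTW

/-!
# Automorphisms commuting with a section give infinitely divisible elements of the fixed field
-/

set_option autoImplicit false

namespace Pool.Agent.Helper82.SN

open Pool.Agent.Helper14.BSC

variable {k Ω : Type} [Field k] [Field Ω] [Algebra k Ω]

/-- an automorphism commuting with the section and fixing the fixed field is trivial -/
theorem sn_one [CharZero k] [IsAlgClosed Ω] (D : Sec k Ω) (τ : Ω ≃+* Ω)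
    (hA : ∀ a : Acl k Ω, τ (a : Ω) = a) (hL : ∀ x : LL D, τ (x : Ω) = x) (x : Ω) : τ x = x := by
  have h1 := extw_span D x
  induction h1 using Submodule.span_induction with
  | mem y hy =>
    obtain ⟨a, rfl⟩ := hy
    exact hA a
  | zero => exact map_zero τ
  | add y z _ _ hy hz => rw [map_add, hy, hz]
  | smul l y _ hy =>
    have h2 : l • y = (l : Ω) * y := rfl
    rw [h2, map_mul, hL, hy]

/-- the automorphism maps the fixed field of `Stab S` to itself -/
theorem sn_mem (D : Sec k Ω) (S : Set (Acl k Ω)) (τ : Ω ≃+* Ω)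
    (hc : ∀ g ∈ Stab S, ∀ x : Ω, τ (D.s g x) = D.s g (τ x)) (x : Ω) (hx : x ∈ NN D S) :
    τ x ∈ NN D S := by
  intro g hg
  rw [← hc g hg, hx g hg]

theorem sn_mem' (D : Sec k Ω) (S : Set (Acl k Ω)) (τ : Ω ≃+* Ω)
    (hc : ∀ g ∈ Stab S, ∀ x : Ω, τ (D.s g x) = D.s g (τ x)) (x : Ω) (hx : τ x ∈ NN D S) :
    x ∈ NN D S := by
  intro g hg
  apply τ.injective
  rw [hc g hg, hx g hg]

/-- for every nonzero `f` in the fixed field of `Stab S`, `τ f / f` is infinitely divisible -/
theorem sn_div (hKUM : ST_KUM) [CharZero k] [IsAlgClosed Ω] (D : Sec k Ω) (S : Set (Acl k Ω))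
    (τ : Ω ≃+* Ω) (hA : ∀ a : Acl k Ω, τ (a : Ω) = a)
    (hc : ∀ g ∈ Stab S, ∀ x : Ω, τ (D.s g x) = D.s g (τ x)) (f : Ω) (hf : f ∈ NN D S)
    (hf0 : f ≠ 0) (n : ℕ) (hn : 0 < n) : ∃ g : Ω, g ∈ NN D S ∧ τ f / f = g ^ n := by
  obtain ⟨c, hc0, y, hy0, hxy⟩ := hKUM k Ω D S n hn ⟨f, hf⟩ (by
    intro h
    exact hf0 (congrArg Subtype.val h))
  have hfy : f = ((c : Acl k Ω) : Ω) * (y : Ω) ^ n := by
    have := congrArg Subtype.val hxy
    exact this
  have hc1 : ((c : Acl k Ω) : Ω) ≠ 0 := by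
    intro h
    apply hc0
    apply Subtype.ext
    apply Subtype.ext
    exact h
  refine ⟨τ (y : Ω) / (y : Ω), div_mem (sn_mem D S τ hc _ y.2) y.2, ?_⟩
  rw [hfy, map_mul, hA, map_pow, div_pow, mul_div_mul_left _ _ hc1]

/-- if all ratios `τ f / f` are constants then `τ` is the identity -/
theorem sn_ratio {E : Type} [Field E] (A : Subfield E) (L : Subfield E) (_hAL : A ≤ L)
    (τ : E →+* E) (hA : ∀ a ∈ A, τ a = a)
    (h : ∀ f ∈ L, f ≠ 0 → τ f / f ∈ A) : ∀ f ∈ L, τ f = f := by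
  intro f hf
  by_cases hfA : f ∈ A
  · exact hA f hfA
  have hf0 : f ≠ 0 := by
    rintro rfl
    exact hfA (zero_mem A)
  have hf1 : f + 1 ≠ 0 := by
    intro h1
    apply hfA
    rw [eq_neg_of_add_eq_zero_left h1]
    exact neg_mem (one_mem A)
  have h2 := h f hf hf0
  have h3 := h (f + 1) (add_mem hf (one_mem L)) hf1
  set a := τ f / f with ha
  set b := τ (f + 1) / (f + 1) with hb
  have ha1 : τ f = a * f := by rw [ha, div_mul_cancel₀ _ hf0]
  have hb1 : τ (f + 1) = b * (f + 1) := by rw [hb, div_mul_cancel₀ _ hf1]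
  rw [map_add, map_one, ha1] at hb1
  have h4 : (a - b) * f = b - 1 := by linear_combination hb1
  by_cases hab : a - b = 0
  · rw [hab, zero_mul] at h4
    have h5 : b = 1 := by linear_combination -h4
    have h6 : a = 1 := by rw [sub_eq_zero.1 hab, h5]
    rw [ha1, h6, one_mul]
  · exfalso
    apply hfA
    have h5 : f = (b - 1) / (a - b) := by
      rw [eq_div_iff hab, mul_comm]
      exact h4
    rw [h5]
    exact div_mem (sub_mem h3 (one_mem A)) (sub_mem h2 h3)

end Pool.Agent.Helper82.SN
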