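import Pool.Agent.Helper2.TWI.BC
import Pool.Agent.Helper82.SN.Dir
import Pool.Agent.Helper82.BSC.CNV
import Pool.Agent.Helper37.BSC.RES

/-!
# Descent: a section whose restriction to an open subgroup commutes with an automorphism is geometric
-/

set_option autoImplicit false

namespace Pool.Agent.Helper82.SN

open Pool.Agent.Helper14.BSC Pool.Agent.Helper22.TW

section conj

variable {k Ω : Type} [Field k] [Field Ω] [Algebra k Ω]

/-- all conjugates of the elements of `E` -/
def Cj (E : Set (Acl k Ω)) : Set (Acl k Ω) := {b | ∃ a ∈ E, ∃ g : GG k Ω, g a = b}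

theorem cj_sub (E : Set (Acl k Ω)) : E ⊆ Cj E := fun a ha => ⟨a, ha, 1, rfl⟩

theorem cj_map (E : Set (Acl k Ω)) (h : GG k Ω) (b : Acl k Ω) (hb : b ∈ Cj E) : h b ∈ Cj E := by
  obtain ⟨a, ha, g, rfl⟩ := hb
  exact ⟨a, ha, h * g, rfl⟩

theorem cj_stab (E : Set (Acl k Ω)) (h g : GG k Ω) (hg : g ∈ Stab (Cj E)) :
    h * g * h⁻¹ ∈ Stab (Cj E) := by
  intro a ha
  have h1 := hg (h⁻¹ a) (cj_map E h⁻¹ a ha)
  show h (g (h⁻¹ a)) = a
  rw [h1]
  show (h * h⁻¹) a = a
  rw [mul_inv_cancel]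
  rfl

/-- the normal extension generated by the conjugates -/
def Fn (E : Set (Acl k Ω)) : IntermediateField k Ω :=
  IntermediateField.adjoin k ((fun a : Acl k Ω => (a : Ω)) '' Cj E)

theorem fn_alg (E : Set (Acl k Ω)) (x : Fn E) : IsAlgebraic k (algebraMap (Fn E) Ω x) := by
  have h1 : (x : Ω) ∈ Acl k Ω := by
    have h2 : Fn E ≤ Acl k Ω := by
      rw [Fn, IntermediateField.adjoin_le_iff]
      rintro _ ⟨a, _, rfl⟩
      exact a.2
    exact h2 x.2
  rwa [mem_algebraicClosure_iff] at h1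

theorem fn_hj (E : Set (Acl k Ω)) (c : k) :
    algebraMap (Fn E) Ω (algebraMap k (Fn E) c) = algebraMap k Ω c := rfl

/-- elements of `Stab (Cj E)` fix `Fn E` -/
theorem fn_fix (E : Set (Acl k Ω)) (g : GG k Ω) (hg : g ∈ Stab (Cj E)) (a : Acl k Ω)
    (ha : (a : Ω) ∈ Fn E) : g a = a := by
  have h1 : Fn E ≤ (FF (Cj E)).map (Acl k Ω).val := by
    rw [Fn, IntermediateField.adjoin_le_iff]
    rintro _ ⟨b, hb, rfl⟩
    exact ⟨b, subset_FF _ hb, rfl⟩
  obtain ⟨b, hb, hba⟩ := h1 ha
  have h2 : b = a := Subtype.ext hba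
  rw [← h2]
  exact hb g hg

/-- the image of `Fn E` under `g` -/
theorem fn_map (E : Set (Acl k Ω)) (D : Sec k Ω) (g : GG k Ω) (x : Ω) (hx : x ∈ Fn E) :
    D.s g x ∈ Fn E := by
  rw [Fn] at hx
  induction hx using IntermediateField.adjoin_induction with
  | mem y hy =>
    obtain ⟨a, ha, rfl⟩ := hy
    rw [D.ext]
    exact IntermediateField.subset_adjoin _ _ ⟨g a, cj_map E g a ha, rfl⟩
  | algebraMap y =>
    rw [(D.s g).commutes]
    exact algebraMap_mem _ y
  | add y z _ _ hy hz => rw [map_add]; exact add_mem hy hz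
  | inv y _ hy => rw [map_inv₀]; exact inv_mem hy
  | mul y z _ _ hy hz => rw [map_mul]; exact mul_mem hy hz

/-- the restricted section -/
noncomputable def Dn (E : Set (Acl k Ω)) (D : Sec k Ω) : Sec (Fn E) Ω :=
  bcD (algebraMap k (Fn E)) (fn_hj E) (fn_alg E) D

theorem dn_apply (E : Set (Acl k Ω)) (D : Sec k Ω) (g : GG (Fn E) Ω) (x : Ω) :
    (Dn E D).s g x = D.s (bcG (algebraMap k (Fn E)) (fn_hj E) (fn_alg E) g) x := rfl

theorem dn_stab (E : Set (Acl k Ω)) (g : GG (Fn E) Ω) :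
    bcG (algebraMap k (Fn E)) (fn_hj E) (fn_alg E) g ∈ Stab (Cj E) := by
  intro a ha
  have h0 : (a : Ω) ∈ Fn E := IntermediateField.subset_adjoin _ _ ⟨a, ha, rfl⟩
  have h2 : (bcE (algebraMap k (Fn E)) (fn_hj E) (fn_alg E)).symm a =
      algebraMap (Fn E) (Acl (Fn E) Ω) ⟨(a : Ω), h0⟩ := Subtype.ext rfl
  rw [bcG_apply, h2, g.commutes, ← h2, RingEquiv.apply_symm_apply]

/-- every element of `Stab (Cj E)` comes from `Gal(Acl / Fn E)` -/
theorem dn_surj (E : Set (Acl k Ω)) (γ : GG k Ω) (hγ : γ ∈ Stab (Cj E)) :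
    ∃ g : GG (Fn E) Ω, bcG (algebraMap k (Fn E)) (fn_hj E) (fn_alg E) g = γ := by
  let e := bcE (algebraMap k (Fn E)) (fn_hj E) (fn_alg E)
  refine ⟨AlgEquiv.ofRingEquiv (f := (e.trans (γ : Acl k Ω ≃+* Acl k Ω)).trans e.symm) ?_, ?_⟩
  · intro c
    apply Subtype.ext
    show ((γ (e (algebraMap (Fn E) (Acl (Fn E) Ω) c)) : Acl k Ω) : Ω) = (c : Ω)
    rw [fn_fix E γ hγ]
    · rfl
    · exact c.2
  · ext x
    show ((e (e.symm (γ (e (e.symm x)))) : Acl k Ω) : Ω) = _
    rw [RingEquiv.apply_symm_apply, RingEquiv.apply_symm_apply]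

end conj

section desc

variable {k K Ω : Type} [Field k] [Field K] [Field Ω] [Algebra k K] [Algebra K Ω] [Algebra k Ω]
  [IsScalarTower k K Ω] [CharZero k] [IsAlgClosed Ω] [Algebra.IsAlgebraic K Ω]

omit [CharZero k] [IsAlgClosed Ω] in
theorem des_llmem (D : Sec k Ω) (E : Set (Acl k Ω)) (x : Ω) :
    x ∈ LL (Dn E D) ↔ x ∈ NN D (Cj E) := by
  constructor
  · intro hx γ hγ
    obtain ⟨g, rfl⟩ := dn_surj E γ hγ
    exact hx g (fun a ha => absurd ha (Set.notMem_empty a))
  · intro hx g _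
    exact hx _ (dn_stab E g)

omit [CharZero k] [IsAlgClosed Ω] in
theorem des_stable (D : Sec k Ω) (E : Set (Acl k Ω)) (h : GG k Ω) (x : Ω)
    (hx : x ∈ LL (Dn E D)) : D.s h x ∈ LL (Dn E D) := by
  rw [des_llmem] at hx ⊢
  intro g hg
  have h1 : h⁻¹ * g * h ∈ Stab (Cj E) := by
    have := cj_stab E h⁻¹ g hg
    rwa [inv_inv] at this
  have h2 := hx _ h1
  have h3 : D.s h (D.s (h⁻¹ * g * h) x) = D.s g (D.s h x) := by
    rw [← AlgEquiv.mul_apply, ← map_mul, ← AlgEquiv.mul_apply, ← map_mul]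
    congr 2
    group
  rw [← h3, h2]

omit [IsAlgClosed Ω] in
theorem des_fg (hk : (⊤ : IntermediateField ℚ k).FG) (E : Set (Acl k Ω)) (hE : E.Finite) :
    (⊤ : IntermediateField ℚ (Fn E)).FG := by
  classical
  have hfin : (Cj E).Finite := by
    have h1 : Cj E = ⋃ a ∈ E, {b | ∃ g : GG k Ω, g a = b} := by
      ext b
      simp only [Cj, Set.mem_ofPred_eq, Set.mem_iUnion, exists_prop]
    rw [h1]
    refine hE.biUnion (fun a _ => ?_)
    have hint : IsIntegral k a := Algebra.IsIntegral.isIntegral a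
    refine ((minpoly k a).rootSet_finite (Acl k Ω)).subset ?_
    rintro b ⟨g, rfl⟩
    rw [Polynomial.mem_rootSet]
    refine ⟨minpoly.ne_zero hint, ?_⟩
    have h2 : Polynomial.aeval (g a) (minpoly k a) = g (Polynomial.aeval a (minpoly k a)) :=
      Polynomial.aeval_algHom_apply (g : Acl k Ω →ₐ[k] Acl k Ω) a (minpoly k a)
    rw [h2, minpoly.aeval, map_zero]
  have hfin2 : ((fun a : Acl k Ω => (a : Ω)) '' Cj E).Finite := hfin.image _
  have e1 : Algebra.EssFiniteType ℚ k := IntermediateField.fg_top_iff.1 hk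
  have e2 : Algebra.EssFiniteType k (Fn E) := by
    rw [IntermediateField.essFiniteType_iff]
    refine ⟨hfin2.toFinset, ?_⟩
    rw [Set.Finite.coe_toFinset]
    rfl
  have hcz : CharZero (Fn E) := charZero_of_injective_algebraMap (algebraMap k (Fn E)).injective
  have e3 : Algebra.EssFiniteType ℚ (Fn E) := Algebra.EssFiniteType.comp ℚ k (Fn E)
  exact IntermediateField.fg_top ℚ (Fn E)

omit [Algebra k K] [IsScalarTower k K Ω] [CharZero k] [IsAlgClosed Ω] in
/-- `Ω` is algebraic over the fixed field -/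
theorem des_alg (D : Sec k Ω) (E : Set (Acl k Ω))
    (hfix : ∀ (g : GG k Ω) (x : K), D.s g (algebraMap K Ω x) = algebraMap K Ω x) :
    Algebra.IsAlgebraic (LL (Dn E D)) Ω := by
  have hmem : ∀ x : K, algebraMap K Ω x ∈ LL (Dn E D) := by
    intro x
    rw [des_llmem]
    intro g _
    exact hfix g x
  let i : K →+* LL (Dn E D) := (algebraMap K Ω).codRestrict (LL (Dn E D)) hmem
  let _ : Algebra K (LL (Dn E D)) := i.toAlgebra
  have _ : IsScalarTower K (LL (Dn E D)) Ω := IsScalarTower.of_algebraMap_eq (fun c => rfl)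
  exact Algebra.IsAlgebraic.tower_top (K := K) (LL (Dn E D))

omit [CharZero k] [IsAlgClosed Ω] in
theorem des_tr (htr : ∃ t : K, Transcendental k t ∧ Algebra.IsAlgebraic (IntermediateField.adjoin k {t}) K)
    (E : Set (Acl k Ω)) : ∃ t : K, Transcendental (Fn E) (algebraMap K Ω t) ∧
      Algebra.IsAlgebraic (IntermediateField.adjoin (Fn E) {algebraMap K Ω t}) Ω := by
  obtain ⟨t, ht, halg⟩ := htr
  have hFalg : Algebra.IsAlgebraic k (Fn E) :=
    ⟨fun c => (isAlgebraic_algebraMap_iff (algebraMap (Fn E) Ω).injective).1 (fn_alg E c)⟩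
  refine ⟨t, ?_, ?_⟩
  · intro h
    apply ht
    have h1 : IsAlgebraic k (algebraMap K Ω t) := h.restrictScalars k
    exact (isAlgebraic_algebraMap_iff (algebraMap K Ω).injective).1 h1
  · set A := IntermediateField.adjoin (Fn E) {algebraMap K Ω t} with hA
    have hmemt : algebraMap K Ω t ∈ A := IntermediateField.mem_adjoin_simple_self _ _
    have hk' : ∀ c : k, algebraMap k Ω c ∈ A := by
      intro c
      have : algebraMap k Ω c = algebraMap (Fn E) Ω (algebraMap k (Fn E) c) := rfl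
      rw [this]
      exact algebraMap_mem A _
    have hmem : ∀ x ∈ IntermediateField.adjoin k {t}, algebraMap K Ω x ∈ A := by
      intro x hx
      induction hx using IntermediateField.adjoin_induction with
      | mem y hy =>
        rw [Set.mem_singleton_iff] at hy
        rw [hy]
        exact hmemt
      | algebraMap y =>
        rw [← IsScalarTower.algebraMap_apply]
        exact hk' y
      | add y z _ _ hy hz => rw [map_add]; exact add_mem hy hz
      | inv y _ hy => rw [map_inv₀]; exact inv_mem hy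
      | mul y z _ _ hy hz => rw [map_mul]; exact mul_mem hy hz
    let A₀ := IntermediateField.adjoin k {t}
    let i : A₀ →+* A := ((algebraMap K Ω).comp (algebraMap A₀ K)).codRestrict A
      (fun x => hmem x x.2)
    let _ : Algebra A₀ A := i.toAlgebra
    have _ : IsScalarTower A₀ A Ω := IsScalarTower.of_algebraMap_eq (fun c => rfl)
    have _ : Algebra.IsAlgebraic A₀ Ω := Algebra.IsAlgebraic.trans A₀ K Ω
    exact Algebra.IsAlgebraic.tower_top (K := A₀) A

theorem sn_desc (hKUM : ST_KUM) (hONE : ST_ONE) (hIFD : ST_IFD) (hUNI : ST_UNI) (hALG : ST_ALG)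
    (hEXTW : ST_EXTW) (hBOT : ST_BOT) (D : Sec k Ω) (hk : (⊤ : IntermediateField ℚ k).FG)
    (htr : ∃ t : K, Transcendental k t ∧ Algebra.IsAlgebraic (IntermediateField.adjoin k {t}) K)
    (hfix : ∀ (g : GG k Ω) (x : K), D.s g (algebraMap K Ω x) = algebraMap K Ω x)
    (E : Set (Acl k Ω)) (hE : E.Finite) (τ : Ω ≃+* Ω) (hA : ∀ a : Acl k Ω, τ (a : Ω) = a)
    (hc : ∀ g ∈ Stab E, ∀ x : Ω, τ (D.s g x) = D.s g (τ x)) (hne : ∃ x, τ x ≠ x) :
    ∃ O : ValuationSubring K, GeoV k K Ω D O := by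
  classical
  have hczK : CharZero K := charZero_of_injective_algebraMap (algebraMap k K).injective
  have hczF : CharZero (Fn E) := charZero_of_injective_algebraMap (algebraMap k (Fn E)).injective
  have hFacl : ∀ c : Fn E, ((c : Ω)) ∈ Acl k Ω := by
    intro c
    rw [mem_algebraicClosure_iff]
    exact fn_alg E c
  have hc' : ∀ g ∈ Stab (Cj E), ∀ x : Ω, τ (D.s g x) = D.s g (τ x) := by
    intro g hg
    exact hc g (fun a ha => hg a (cj_sub E ha))
  set D' := Dn E D with hD'
  have hFG' := des_fg hk E hE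
  -- a divisible element
  obtain ⟨f, hf, hf0, hfn⟩ : ∃ f : Ω, f ∈ NN D (Cj E) ∧ f ≠ 0 ∧ τ f / f ∉ Fn E := by
    by_contra hcon
    push Not at hcon
    obtain ⟨x, hx⟩ := hne
    apply hx
    apply sn_one D τ hA
    intro y
    have hy : (y : Ω) ∈ NN D (Cj E) := by
      intro g hg
      exact y.2 g (fun a ha => absurd ha (Set.notMem_empty a))
    refine sn_ratio (Fn E).toSubfield (NN D (Cj E)).toSubfield ?_ (τ : Ω →+* Ω) ?_ ?_ y hy
    · intro z hz g hg
      have h1 : z ∈ Acl k Ω := hFacl ⟨z, hz⟩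
      have h2 := D.ext g ⟨z, h1⟩
      rw [fn_fix E g hg ⟨z, h1⟩ hz] at h2
      exact h2
    · intro z hz
      exact hA ⟨z, hFacl ⟨z, hz⟩⟩
    · intro z hz hz0
      exact hcon z hz hz0
  have hdiv := sn_div hKUM D (Cj E) τ hA hc' f hf hf0
  obtain ⟨t, ht1, ht2⟩ := des_tr htr E
  have hxL : τ f / f ∈ LL D' := by
    rw [hD', des_llmem]
    exact div_mem (sn_mem D (Cj E) τ hc' f hf) hf
  have hAlg := hALG (Fn E) Ω Ω D' ⟨_, ht1, ht2⟩
  obtain ⟨p, hp, σ, P, hP⟩ := hONE (Fn E) Ω D' (Fn E) hFG' ⟨τ f / f, hxL⟩ (by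
      intro c hcc
      apply hfn
      have h1 := congrArg (fun z : LL D' => (z : Ω)) hcc
      have h2 : τ f / f = (c : Ω) := h1
      rw [h2]
      exact c.2) hAlg {0} (by simp) (by
      intro c hc0
      rw [Finset.mem_singleton] at hc0
      subst hc0
      rw [map_zero, map_zero, sub_zero]
      refine ⟨1, one_ne_zero, fun n hn => ⟨1, one_ne_zero, ?_⟩⟩
      obtain ⟨g, hg, hgn⟩ := hdiv n hn
      refine ⟨⟨g, (by rw [hD', des_llmem]; exact hg)⟩, ?_, 1, ?_⟩
      · rw [map_one, one_mul]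
        apply Subtype.ext
        exact hgn
      · rw [map_one, one_pow, mul_one])
  have hLLfix : ∀ (g : GG (Fn E) Ω) (x : LL D'), D'.s g (algebraMap (LL D') Ω x) = algebraMap (LL D') Ω x := by
    intro g x
    exact x.2 g (fun a ha => absurd ha (Set.notMem_empty a))
  have hLalg : Algebra.IsAlgebraic (LL D') Ω := des_alg D E hfix
  have htL : ∃ t : LL D', Transcendental (Fn E) t := by
    have hm : algebraMap K Ω t ∈ LL D' := by
      rw [hD', des_llmem]
      intro g _
      exact hfix g t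
    refine ⟨⟨_, hm⟩, ?_⟩
    intro h
    apply ht1
    exact (isAlgebraic_algebraMap_iff (R := Fn E) (A := Ω) (algebraMap (LL D') Ω).injective).2 h
  obtain ⟨O', hO'⟩ := hIFD (Fn E) (LL D') Ω D' p σ P htL hLLfix hP
  have hO'' := hO'
  obtain ⟨hO1, hO2, hO3, W', hO4, hO5⟩ := hO''
  have hmO : ∀ x : LL D', ((x : Ω) ∈ W' ↔ x ∈ O') := fun x => by rw [← hO4]; exact Iff.rfl
  have hFW : ∀ c : Fn E, (c : Ω) ∈ W' := fun c => (hmO (algebraMap _ _ c)).2 (hO2 c)
  have hcancel : ∀ (h : GG k Ω) (y : Ω), D.s h (D.s h⁻¹ y) = y := by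
    intro h y
    rw [← AlgEquiv.mul_apply, ← map_mul, mul_inv_cancel, map_one]
    rfl
  -- stability under the whole section
  have hstab : ∀ (h : GG k Ω) (x : LL D'), ((x : Ω) ∈ W' ↔ D.s h (x : Ω) ∈ W') := by
    intro h
    let W'' : ValuationSubring Ω := W'.comap (D.s h : Ω →+* Ω)
    have hGeo : GeoV (Fn E) (LL D') Ω D' (W''.comap (algebraMap (LL D') Ω)) := by
      refine ⟨?_, ?_, ?_, W'', rfl, ?_⟩
      · intro htop
        apply hO1
        rw [eq_top_iff]
        intro y _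
        have hz := des_stable D E h⁻¹ y y.2
        have h1 : (⟨_, hz⟩ : LL D') ∈ W''.comap (algebraMap (LL D') Ω) := by rw [htop]; trivial
        have h2 : D.s h (D.s h⁻¹ (y : Ω)) ∈ W' := h1
        rw [hcancel] at h2
        exact (hmO y).1 h2
      · intro c
        show D.s h (c : Ω) ∈ W'
        exact hFW ⟨_, fn_map E D h _ c.2⟩
      · intro a ha
        have ha' : D.s h (a : Ω) ∈ W' := ha
        have hz := des_stable D E h a a.2
        obtain ⟨c, hcc⟩ := hO3 ⟨_, hz⟩ ((hmO _).1 ha')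
        refine ⟨⟨_, fn_map E D h⁻¹ _ c.2⟩, ?_⟩
        have h4 : D.s h ((a : Ω) - D.s h⁻¹ (c : Ω)) = D.s h a - c := by
          rw [map_sub, hcancel]
        rw [cnv_val] at hcc ⊢
        rcases hcc with hcc | hcc
        · left
          apply Subtype.ext
          apply (D.s h).injective
          show D.s h ((a : Ω) - D.s h⁻¹ (c : Ω)) = D.s h 0
          rw [h4, map_zero]
          exact congrArg Subtype.val hcc
        · right
          intro hcon
          apply hcc
          rw [← hmO]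
          have h5 : D.s h (((a : Ω) - D.s h⁻¹ (c : Ω))⁻¹) ∈ W' := hcon
          rw [map_inv₀, h4] at h5
          exact h5
      · intro g x
        show D.s h (D.s (bcG (algebraMap k (Fn E)) (fn_hj E) (fn_alg E) g) x) ∈ W' ↔ D.s h x ∈ W'
        set γ := bcG (algebraMap k (Fn E)) (fn_hj E) (fn_alg E) g with hγ
        have hγs : γ ∈ Stab (Cj E) := dn_stab E g
        obtain ⟨g', hg'⟩ := dn_surj E (h * γ * h⁻¹) (cj_stab E h γ hγs)
        have h6 : D.s h (D.s γ x) = D'.s g' (D.s h x) := by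
          rw [hD', dn_apply, hg', ← AlgEquiv.mul_apply, ← map_mul, ← AlgEquiv.mul_apply, ← map_mul]
          congr 2
          group
        rw [h6]
        exact hO5 g' (D.s h x)
    have huni := hUNI (Fn E) (LL D') Ω D' hFG' hLLfix _ _ hO' hGeo
    intro x
    rw [hmO, huni]
    exact Iff.rfl
  -- the valuation ring of the fixed field of `D`
  have hLL : ∀ x : LL D, (x : Ω) ∈ LL D' := by
    intro x
    rw [hD', des_llmem]
    intro g hg
    exact x.2 g (fun a ha => absurd ha (Set.notMem_empty a))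
  let C : ValuationSubring (LL D) := W'.comap (algebraMap (LL D) Ω)
  have hC : ∀ x : LL D, x ∈ C ↔ (x : Ω) ∈ W' := fun x => Iff.rfl
  have hCk : ∀ c : k, algebraMap k (LL D) c ∈ C := by
    intro c
    rw [hC]
    exact hFW (algebraMap k (Fn E) c)
  have hres : ∀ x ∈ C, ∃ c : k, C.valuation (x - algebraMap k (LL D) c) < 1 := by
    intro x hx
    rw [hC] at hx
    obtain ⟨c, hcc⟩ := hO3 ⟨_, hLL x⟩ ((hmO _).1 hx)
    have hcc' : W'.valuation ((x : Ω) - (c : Ω)) < 1 := by
      rw [cnv_val] at hcc ⊢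
      rcases hcc with hcc | hcc
      · left
        exact congrArg Subtype.val hcc
      · right
        intro hcon
        exact hcc ((hmO _).1 hcon)
    have hmemL : (x : Ω) - (c : Ω) ∈ LL D' := (⟨_, hLL x⟩ - algebraMap (Fn E) (LL D') c : LL D').2
    have hcon : ∀ h : GG k Ω, W'.valuation ((x : Ω) - D.s h (c : Ω)) < 1 := by
      intro h
      have hx1 : D.s h (x : Ω) = x := x.2 h (fun a ha => absurd ha (Set.notMem_empty a))
      have h7 : (x : Ω) - D.s h (c : Ω) = D.s h ((x : Ω) - (c : Ω)) := by rw [map_sub, hx1]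
      rw [h7]
      rw [cnv_val] at hcc' ⊢
      rcases hcc' with hcc' | hcc'
      · left
        rw [hcc', map_zero]
      · right
        rw [← map_inv₀]
        intro h8
        apply hcc'
        exact (hstab h ⟨_, inv_mem hmemL⟩).2 h8
    have hceq : ∀ h : GG k Ω, D.s h (c : Ω) = c := by
      intro h
      by_contra hne2
      have h8 : W'.valuation ((c : Ω) - D.s h (c : Ω)) < 1 := by
        have h9 : (c : Ω) - D.s h (c : Ω) = ((x : Ω) - D.s h (c : Ω)) - ((x : Ω) - (c : Ω)) := by ring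
        rw [h9]
        exact lt_of_le_of_lt (Valuation.map_sub _ _ _) (max_lt (hcon h) hcc')
      rw [cnv_val] at h8
      rcases h8 with h8 | h8
      · exact hne2 (sub_eq_zero.1 h8).symm
      · apply h8
        exact hFW ⟨_, inv_mem (sub_mem c.2 (fn_map E D h _ c.2))⟩
    have hcA : (c : Ω) ∈ Acl k Ω := hFacl c
    obtain ⟨c0, hc0⟩ := hBOT k Ω ⟨(c : Ω), hcA⟩ (by
      intro g _
      apply Subtype.ext
      have h9 := D.ext g ⟨(c : Ω), hcA⟩
      rw [← h9]
      exact hceq g)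
    have hc1 : (c : Ω) = algebraMap k Ω c0 := congrArg Subtype.val hc0
    refine ⟨c0, ?_⟩
    rw [hc1] at hcc'
    rw [cnv_val] at hcc' ⊢
    rcases hcc' with hcc' | hcc'
    · left
      exact Subtype.ext hcc'
    · right
      exact hcc'
  obtain ⟨W, hW1, hW2⟩ := hEXTW k Ω D C hCk hres
  have hKL : ∀ x : K, algebraMap K Ω x ∈ LL D := fun x g _ => hfix g x
  refine ⟨W.comap (algebraMap K Ω), ?_, ?_, ?_, W, rfl, hW2⟩
  · intro htop
    have hKW : ∀ x : K, algebraMap K Ω x ∈ W := by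
      intro x
      have : x ∈ W.comap (algebraMap K Ω) := by rw [htop]; trivial
      exact this
    have hallW : ∀ x : Ω, x ∈ W := fun x => res_valg W hKW x (Algebra.IsAlgebraic.isAlgebraic x)
    have hLW' : ∀ x : K, algebraMap K Ω x ∈ W' := by
      intro x
      have h1 := (hW1 ⟨_, hKL x⟩).1 (hallW _)
      exact h1
    apply hO1
    rw [eq_top_iff]
    intro y _
    rw [← hmO]
    exact res_valg W' hLW' (y : Ω) (Algebra.IsAlgebraic.isAlgebraic _)
  · intro c
    show algebraMap K Ω (algebraMap k K c) ∈ W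
    rw [← IsScalarTower.algebraMap_apply]
    exact (hW1 (algebraMap k (LL D) c)).2 (hCk c)
  · intro a ha
    have ha' : algebraMap K Ω a ∈ W := ha
    obtain ⟨c, hcc⟩ := hres ⟨_, hKL a⟩ ((hW1 ⟨_, hKL a⟩).1 ha')
    refine ⟨c, ?_⟩
    rw [cnv_val] at hcc ⊢
    rcases hcc with hcc | hcc
    · left
      apply (algebraMap K Ω).injective
      rw [map_sub, map_zero, ← IsScalarTower.algebraMap_apply]
      exact congrArg Subtype.val hcc
    · right
      intro h1
      apply hcc
      rw [← hW1]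
      have h2 : algebraMap K Ω ((a - algebraMap k K c)⁻¹) ∈ W := h1
      rw [map_inv₀, map_sub, ← IsScalarTower.algebraMap_apply] at h2
      exact h2

end desc

end Pool.Agent.Helper82.SN
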