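import Pool.Agent.Helper82.SN.Conv
import Pool.Agent.Helper82.SN.Des

/-!
# The centralizer criterion over arbitrary algebraic closures
-/

set_option autoImplicit false

namespace Pool.Agent.Helper82.SN

open Pool.Agent.Helper14.BSC Pool.Agent.Helper14.BSC.Gen

variable {k K kb Ω : Type} [Field k] [Field K] [Field kb] [Field Ω] [Algebra k K] [Algebra k kb]
  [Algebra kb Ω] [Algebra k Ω] [Algebra K Ω] [IsScalarTower k K Ω] [IsScalarTower k kb Ω]
  [Algebra.IsAlgebraic K Ω] [IsAlgClosure k kb]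

/-- `s` is geometric if an automorphism over `kb` commutes with `s(U)`, `U` open -/
theorem sn_gen1 (hKUM : ST_KUM) (hONE : ST_ONE) (hIFD : ST_IFD) (hUNI : ST_UNI) (hALG : ST_ALG)
    (hEXTW : ST_EXTW) (hBOT : ST_BOT) [CharZero k] [IsAlgClosed Ω] (hk : (⊤ : IntermediateField ℚ k).FG)
    (htr : ∃ t : K, Transcendental k t ∧ Algebra.IsAlgebraic (IntermediateField.adjoin k {t}) K)
    (s : (kb ≃ₐ[k] kb) →* (Ω ≃ₐ[K] Ω)) (hs : IsSection s) (U : Subgroup (kb ≃ₐ[k] kb))
    (hU : IsOpen (U : Set (kb ≃ₐ[k] kb))) (τ : Ω ≃ₐ[kb] Ω) (hτ : τ ≠ 1)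
    (hc : ∀ g ∈ U, ∀ x : Ω, τ (s g x) = s g (τ x)) : IsGeometric s := by
  classical
  have hnhd : (U : Set (kb ≃ₐ[k] kb)) ∈ nhds (1 : kb ≃ₐ[k] kb) := hU.mem_nhds U.one_mem
  rw [krullTopology_mem_nhds_one_iff] at hnhd
  obtain ⟨E, hE, hsub⟩ := hnhd
  have hEG : E.FG := by
    have _ := hE
    exact IntermediateField.fg_of_fg_toSubalgebra E
      ((Subalgebra.fg_iff_finiteType _).2 (by
        have _ : Module.Finite k E.toSubalgebra := hE
        infer_instance))
  obtain ⟨B, hB⟩ := hEG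
  have hUB : ∀ g : kb ≃ₐ[k] kb, (∀ a ∈ B, g a = a) → g ∈ U := by
    intro g hg
    apply hsub
    rw [SetLike.mem_coe, IntermediateField.mem_fixingSubgroup_iff]
    intro y hy
    rw [← hB] at hy
    induction hy using IntermediateField.adjoin_induction with
    | mem z hz => exact hg z hz
    | algebraMap c => exact g.commutes c
    | add a b _ _ ha hb => rw [map_add, ha, hb]
    | inv a _ ha => rw [map_inv₀, ha]
    | mul a b _ _ ha hb => rw [map_mul, ha, hb]
  set D := topD s hs with hD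
  have hτA : ∀ a : Acl k Ω, (τ : Ω ≃+* Ω) (a : Ω) = a := by
    intro a
    obtain ⟨y, rfl⟩ := (topE k kb Ω).surjective a
    rw [topE_coe]
    exact τ.commutes y
  have hfix : ∀ (g : GG k Ω) (x : K), D.s g (algebraMap K Ω x) = algebraMap K Ω x :=
    fun g x => (s _).commutes x
  obtain ⟨O, hO⟩ := sn_desc hKUM hONE hIFD hUNI hALG hEXTW hBOT D hk htr hfix
    ((B.image (topE k kb Ω) : Finset (Acl k Ω)) : Set (Acl k Ω)) (Finset.finite_toSet _) (τ : Ω ≃+* Ω) hτA (by
      intro g hg x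
      apply hc
      apply hUB
      intro a ha
      have h1 := hg (topE k kb Ω a) (Finset.mem_coe.2 (Finset.mem_image_of_mem _ ha))
      show (topE k kb Ω).symm (g (topE k kb Ω a)) = a
      rw [h1, AlgEquiv.symm_apply_apply]) (by
      by_contra hcon
      push Not at hcon
      exact hτ (AlgEquiv.ext hcon))
  refine ⟨O, (top_geo s hs O).2 hO, ?_⟩
  intro O' hO'
  exact hUNI k K Ω D hk hfix O' O ((top_geo s hs O').1 hO') hO

/-- a geometric section commutes with a nontrivial automorphism over `kb` -/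
theorem sn_gen2 (hKUM : ST_KUM) (hBOT : ST_BOT) [CharZero k] [IsAlgClosed Ω]
    (htr : ∃ t : K, Transcendental k t ∧ Algebra.IsAlgebraic (IntermediateField.adjoin k {t}) K)
    (s : (kb ≃ₐ[k] kb) →* (Ω ≃ₐ[K] Ω)) (hs : IsSection s) (hG : IsGeometric s) :
    ∃ τ : Ω ≃ₐ[kb] Ω, τ ≠ 1 ∧ ∀ g x, τ (s g x) = s g (τ x) := by
  obtain ⟨O, hO, _⟩ := hG
  obtain ⟨τ, hτA, hτc, x, hx⟩ := sn_conv hKUM hBOT (topD s hs) htr (fun g x => (s _).commutes x) O
    ((top_geo s hs O).1 hO)
  refine ⟨AlgEquiv.ofRingEquiv (f := τ) ?_, ?_, ?_⟩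
  · intro c
    have h1 := hτA (topE k kb Ω c)
    rwa [topE_coe] at h1
  · intro h
    apply hx
    have h1 := congrArg (fun σ : Ω ≃ₐ[kb] Ω => σ x) h
    exact h1
  · intro g y
    have h1 := hτc (AlgEquiv.autCongr (topE k kb Ω) g) y
    rw [topD_s, MulEquiv.symm_apply_apply] at h1
    rw [topD_s, MulEquiv.symm_apply_apply] at h1
    exact h1

/-- a nontrivial endomorphism of the fixed field -/
theorem sn_gen3 (hKUM : ST_KUM) (hONE : ST_ONE) (hIFD : ST_IFD) (hUNI : ST_UNI) (hALG : ST_ALG)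
    (hBOT : ST_BOT) [CharZero k] [IsAlgClosed Ω] (hk : (⊤ : IntermediateField ℚ k).FG)
    (htr : ∃ t : K, Transcendental k t ∧ Algebra.IsAlgebraic (IntermediateField.adjoin k {t}) K)
    (s : (kb ≃ₐ[k] kb) →* (Ω ≃ₐ[K] Ω)) (hs : IsSection s)
    (L : IntermediateField K Ω) (hmem : ∀ x : Ω, x ∈ L ↔ ∀ g, s g x = x)
    (σ : L →ₐ[k] L) (hσ : σ ≠ AlgHom.id k L) : IsGeometric s := by
  classical
  let A : Subfield L := (algebraMap k L).fieldRange
  obtain ⟨f, hf0, hfA⟩ : ∃ f : L, f ≠ 0 ∧ σ f / f ∉ A := by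
    by_contra hcon
    push Not at hcon
    apply hσ
    apply AlgHom.ext
    intro f
    exact sn_ratio A ⊤ le_top (σ : L →+* L) (by
      rintro _ ⟨c, rfl⟩
      exact σ.commutes c) (fun f _ hf => hcon f hf) f trivial
  set x : Ω := ((σ f / f : L) : Ω) with hx
  apply top_main hONE hIFD hUNI hALG hk k htr s hs
  refine ⟨x, (hmem x).1 (σ f / f).2, ?_, {0}, by simp, ?_⟩
  · rintro ⟨c, hc⟩
    apply hfA
    refine ⟨c, Subtype.ext ?_⟩
    exact hc
  · intro c hc
    rw [Finset.mem_singleton] at hc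
    subst hc
    rw [map_zero, map_zero, sub_zero]
    refine ⟨1, one_ne_zero, fun n hn => ?_⟩
    have hfD : (f : Ω) ∈ LL (topD s hs) := (top_mem s hs _).2 ((hmem _).1 f.2)
    obtain ⟨c, hc0, y, hy0, hxy⟩ := hKUM k Ω (topD s hs) ∅ n hn ⟨(f : Ω), hfD⟩ (by
      intro h
      exact hf0 (Subtype.ext (congrArg (fun z : LL (topD s hs) => (z : Ω)) h)))
    obtain ⟨c0, hc0'⟩ := hBOT k Ω (c : Acl k Ω) c.2
    have h1 : (f : Ω) = ((c : Acl k Ω) : Ω) * (y : Ω) ^ n := congrArg Subtype.val hxy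
    rw [hc0'] at h1
    have h2 : (f : Ω) = algebraMap k Ω c0 * (y : Ω) ^ n := h1
    have hyL : (y : Ω) ∈ L := (hmem _).2 ((top_mem s hs _).1 y.2)
    set y' : L := ⟨(y : Ω), hyL⟩ with hy'
    have h3 : f = algebraMap k L c0 * y' ^ n := Subtype.ext h2
    have hc00 : algebraMap k L c0 ≠ 0 := by
      intro h
      rw [h, zero_mul] at h3
      exact hf0 h3
    have h4 : σ f / f = (σ y' / y') ^ n := by
      rw [h3, map_mul, σ.commutes, map_pow, div_pow, mul_div_mul_left _ _ hc00]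
    refine ⟨1, one_ne_zero, ((σ y' / y' : L) : Ω), (hmem _).1 (σ y' / y').2, ?_, 1, ?_⟩
    · rw [map_one, one_mul, hx, h4]
      rfl
    · rw [map_one, one_pow, mul_one]

/-- restriction to the fixed field -/
theorem sn_gen4 [CharZero k] [IsAlgClosed Ω] (s : (kb ≃ₐ[k] kb) →* (Ω ≃ₐ[K] Ω)) (hs : IsSection s)
    (τ : Ω ≃ₐ[kb] Ω) (hτ : τ ≠ 1) (hc : ∀ g x, τ (s g x) = s g (τ x)) :
    ∃ σ : IntermediateField.fixedField s.range →ₐ[k] IntermediateField.fixedField s.range,
      σ ≠ AlgHom.id k _ := by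
  classical
  have hmem : ∀ x : Ω, x ∈ IntermediateField.fixedField s.range ↔ ∀ g, s g x = x := by
    intro x
    rw [IntermediateField.mem_fixedField_iff]
    constructor
    · intro h g
      exact h (s g) ⟨g, rfl⟩
    · rintro h _ ⟨g, rfl⟩
      exact h g
  have hmap : ∀ x ∈ IntermediateField.fixedField s.range, τ x ∈ IntermediateField.fixedField s.range := by
    intro x hx
    rw [hmem] at hx ⊢
    intro g
    rw [← hc, hx]
  have hkk : ∀ c : k, τ (algebraMap k Ω c) = algebraMap k Ω c := by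
    intro c
    rw [IsScalarTower.algebraMap_apply k kb Ω]
    exact τ.commutes _
  refine ⟨{ toFun := fun x => ⟨τ x, hmap x x.2⟩
            map_one' := Subtype.ext (map_one τ)
            map_mul' := fun a b => Subtype.ext (map_mul τ _ _)
            map_zero' := Subtype.ext (map_zero τ)
            map_add' := fun a b => Subtype.ext (map_add τ _ _)
            commutes' := fun c => Subtype.ext (hkk c) }, ?_⟩
  intro h
  apply hτ
  have hτA : ∀ a : Acl k Ω, (τ : Ω ≃+* Ω) (a : Ω) = a := by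
    intro a
    obtain ⟨y, rfl⟩ := (topE k kb Ω).surjective a
    rw [topE_coe]
    exact τ.commutes y
  apply AlgEquiv.ext
  intro x
  refine sn_one (topD s hs) (τ : Ω ≃+* Ω) hτA ?_ x
  intro y
  have hy : (y : Ω) ∈ IntermediateField.fixedField s.range := (hmem _).2 ((top_mem s hs _).1 y.2)
  have h1 := congrArg (fun φ => ((φ ⟨(y : Ω), hy⟩ : IntermediateField.fixedField s.range) : Ω)) h
  exact h1

end Pool.Agent.Helper82.SN
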