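import Mathlib
import Pool.Agent.Helper82.BSC.CNV

/-!
# Galois groups act transitively on the extensions of a valuation ring
-/

set_option autoImplicit false

namespace Pool.Agent.Helper82.SN

open Pool.Agent.Helper14.BSC

section split

variable {R Ω : Type} [Field R] [Field Ω] [Algebra R Ω]

/-- an algebraic element `x` is a quotient `(x u) / u` of integral elements, with `u` a unit at all places
where `x` is integral -/
theorem conj_split (O : ValuationSubring R) (x : Ω) (hx : IsAlgebraic R x) :
    ∃ u : Ω, (∀ V' : ValuationSubring Ω, (∀ a ∈ O, algebraMap R Ω a ∈ V') → u ∈ V' ∧ x * u ∈ V') ∧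
      ∀ V : ValuationSubring Ω, (∀ a : R, algebraMap R Ω a ∈ V ↔ a ∈ O) → x ∈ V →
        V.valuation u = 1 := by
  classical
  obtain ⟨p, hp0, hp⟩ := hx
  have hsupp : p.support.Nonempty := by
    rw [Finset.nonempty_iff_ne_empty, Ne, Polynomial.support_eq_empty]
    exact hp0
  obtain ⟨m, hm, hmax⟩ := p.support.exists_max_image (fun i => O.valuation (p.coeff i)) hsupp
  have hcm : p.coeff m ≠ 0 := Polynomial.mem_support_iff.1 hm
  set a : ℕ → R := fun i => p.coeff i / p.coeff m with ha
  have haO : ∀ i, O.valuation (a i) ≤ 1 := by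
    intro i
    by_cases hi : p.coeff i = 0
    · simp [ha, hi]
    · have h1 := hmax i (Polynomial.mem_support_iff.2 hi)
      rw [ha]
      simp only
      rw [map_div₀]
      exact div_le_one_of_le₀ h1 zero_le
  have ham : a m = 1 := by simp [ha, hcm]
  have hsum : ∑ i ∈ Finset.range (p.natDegree + 1), algebraMap R Ω (a i) * x ^ i = 0 := by
    have h1 : Polynomial.aeval x p = ∑ i ∈ Finset.range (p.natDegree + 1),
        algebraMap R Ω (p.coeff i) * x ^ i := by
      rw [Polynomial.aeval_eq_sum_range]
      exact Finset.sum_congr rfl (fun i _ => by rw [Algebra.smul_def])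
    rw [hp] at h1
    have h2 : ∑ i ∈ Finset.range (p.natDegree + 1), algebraMap R Ω (a i) * x ^ i =
        algebraMap R Ω (p.coeff m)⁻¹ * ∑ i ∈ Finset.range (p.natDegree + 1),
          algebraMap R Ω (p.coeff i) * x ^ i := by
      rw [Finset.mul_sum]
      refine Finset.sum_congr rfl (fun i _ => ?_)
      rw [ha]
      simp only
      rw [div_eq_mul_inv, map_mul]
      ring
    rw [h2, ← h1, mul_zero]
  -- the largest index with a unit coefficient
  set S := (Finset.range (p.natDegree + 1)).filter (fun i => O.valuation (a i) = 1) with hS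
  have hSne : S.Nonempty := by
    refine ⟨m, ?_⟩
    rw [hS, Finset.mem_filter, Finset.mem_range]
    refine ⟨Nat.lt_succ_of_le (Polynomial.le_natDegree_of_mem_supp m hm), ?_⟩
    rw [ham, map_one]
  set k := S.max' hSne with hk
  have hkS : k ∈ S := S.max'_mem hSne
  rw [hS, Finset.mem_filter, Finset.mem_range] at hkS
  obtain ⟨hkN, hk1⟩ := hkS
  have hlt : ∀ i, k < i → i < p.natDegree + 1 → O.valuation (a i) < 1 := by
    intro i hki hi
    refine lt_of_le_of_ne (haO i) (fun h => ?_)
    have : i ∈ S := by
      rw [hS, Finset.mem_filter, Finset.mem_range]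
      exact ⟨hi, h⟩
    exact absurd (S.le_max' i this) (not_le.2 hki)
  set u : Ω := ∑ j ∈ Finset.range (p.natDegree + 1 - k), algebraMap R Ω (a (k + j)) * x ^ j with hu
  set r : Ω := ∑ i ∈ Finset.range k, algebraMap R Ω (a i) * x ^ i with hr
  have hrel : r + x ^ k * u = 0 := by
    rw [← hsum, hr, hu, Finset.mul_sum]
    have h1 : p.natDegree + 1 = k + (p.natDegree + 1 - k) := by omega
    rw [h1, Finset.sum_range_add]
    congr 1
    have h2 : k + (p.natDegree + 1 - k) - k = p.natDegree + 1 - k := by omega
    rw [h2]
    refine Finset.sum_congr rfl (fun j _ => ?_)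
    rw [pow_add]
    ring
  have haV : ∀ V' : ValuationSubring Ω, (∀ a ∈ O, algebraMap R Ω a ∈ V') → ∀ i,
      algebraMap R Ω (a i) ∈ V' := by
    intro V' hV' i
    exact hV' _ ((O.valuation_le_one_iff _).1 (haO i))
  refine ⟨u, ?_, ?_⟩
  · intro V' hV'
    have haV' := haV V' hV'
    rcases V'.mem_or_inv_mem x with hx | hx
    · have h1 : u ∈ V' := by
        rw [hu]
        exact sum_mem (fun j _ => mul_mem (haV' _) (pow_mem hx _))
      exact ⟨h1, mul_mem hx h1⟩
    · by_cases hx0 : x = 0
      · have hx' : x ∈ V' := by rw [hx0]; exact zero_mem V'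
        have h1 : u ∈ V' := by
          rw [hu]
          exact sum_mem (fun j _ => mul_mem (haV' _) (pow_mem hx' _))
        exact ⟨h1, mul_mem hx' h1⟩
      · have h2 : u = - ∑ i ∈ Finset.range k, algebraMap R Ω (a i) * (x⁻¹) ^ (k - i) := by
          have h3 : x ^ k ≠ 0 := pow_ne_zero _ hx0
          apply mul_left_cancel₀ h3
          have h4 : x ^ k * u = - r := by linear_combination hrel
          rw [h4, hr, mul_neg, Finset.mul_sum]
          congr 1
          refine Finset.sum_congr rfl (fun i hi => ?_)
          rw [Finset.mem_range] at hi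
          have h5 : x ^ k = x ^ i * x ^ (k - i) := by rw [← pow_add]; congr 1; omega
          rw [h5, inv_pow]
          have h6 : x ^ (k - i) ≠ 0 := pow_ne_zero _ hx0
          field_simp
        have h3 : x * u = - ∑ i ∈ Finset.range k, algebraMap R Ω (a i) * (x⁻¹) ^ (k - i - 1) := by
          rw [h2, mul_neg, Finset.mul_sum]
          congr 1
          refine Finset.sum_congr rfl (fun i hi => ?_)
          rw [Finset.mem_range] at hi
          have h5 : k - i = (k - i - 1) + 1 := by omega
          rw [h5, Nat.add_sub_cancel, pow_succ]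
          field_simp
        constructor
        · rw [h2]
          exact neg_mem (sum_mem (fun j _ => mul_mem (haV' _) (pow_mem hx _)))
        · rw [h3]
          exact neg_mem (sum_mem (fun j _ => mul_mem (haV' _) (pow_mem hx _)))
  · intro V hV hxV
    have hval : ∀ b : R, O.valuation b < 1 → V.valuation (algebraMap R Ω b) < 1 := by
      intro b hb
      rw [cnv_val] at hb ⊢
      rcases hb with hb | hb
      · left; rw [hb, map_zero]
      · right; rw [← map_inv₀, hV]; exact hb
    have hak : V.valuation (algebraMap R Ω (a k)) = 1 := by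
      refine le_antisymm ?_ ?_
      · rw [V.valuation_le_one_iff, hV, ← O.valuation_le_one_iff]
        exact haO k
      · by_contra hcon
        push Not at hcon
        rw [cnv_val] at hcon
        rcases hcon with hcon | hcon
        · rw [map_eq_zero] at hcon
          rw [hcon, map_zero] at hk1
          exact zero_ne_one hk1
        · apply hcon
          rw [← map_inv₀, hV, ← O.valuation_le_one_iff, map_inv₀, hk1, inv_one]
    have hxv : V.valuation x ≤ 1 := (V.valuation_le_one_iff x).2 hxV
    have hNk : p.natDegree + 1 - k = (p.natDegree - k) + 1 := by omega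
    have hu' : u = algebraMap R Ω (a k) +
        ∑ j ∈ Finset.range (p.natDegree - k), algebraMap R Ω (a (k + (j + 1))) * x ^ (j + 1) := by
      rw [hu, hNk, Finset.sum_range_succ', add_comm]
      simp
    have hsmall : V.valuation (∑ j ∈ Finset.range (p.natDegree - k),
        algebraMap R Ω (a (k + (j + 1))) * x ^ (j + 1)) < 1 := by
      apply Valuation.map_sum_lt _ one_ne_zero
      intro j hj
      rw [Finset.mem_range] at hj
      rw [map_mul, map_pow]
      have h1 := hval _ (hlt (k + (j + 1)) (by omega) (by omega))
      calc V.valuation (algebraMap R Ω (a (k + (j + 1)))) * V.valuation x ^ (j + 1)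
          ≤ V.valuation (algebraMap R Ω (a (k + (j + 1)))) * 1 := by
            apply mul_le_mul_right
            exact pow_le_one₀ zero_le hxv
        _ < 1 := by rw [mul_one]; exact h1
    rw [hu', Valuation.map_add_eq_of_lt_left _ (by rw [hak]; exact hsmall), hak]

end split

end Pool.Agent.Helper82.SN
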