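import Pool.Agent.Helper82.SN.Conj

set_option autoImplicit false

namespace Pool.Agent.Helper82.SN

open Pool.Agent.Helper14.BSC

section conj

variable {R Ω : Type} [Field R] [Field Ω] [Algebra R Ω]

/-- the integral closure -/
def Bc (O : ValuationSubring R) : Subring Ω where
  carrier := {x | ∀ V' : ValuationSubring Ω, (∀ a ∈ O, algebraMap R Ω a ∈ V') → x ∈ V'}
  mul_mem' := fun hx hy V hV => mul_mem (hx V hV) (hy V hV)
  one_mem' := fun V _ => one_mem V
  add_mem' := fun hx hy V hV => add_mem (hx V hV) (hy V hV)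
  zero_mem' := fun V _ => zero_mem V
  neg_mem' := fun hx V hV => neg_mem (hx V hV)

theorem bc_map (O : ValuationSubring R) (σ : Ω ≃ₐ[R] Ω) (x : Ω) (hx : x ∈ Bc (Ω := Ω) O) :
    σ x ∈ Bc (Ω := Ω) O := by
  intro V hV
  have h1 := hx (V.comap (σ : Ω →+* Ω)) (by
    intro a ha
    show σ (algebraMap R Ω a) ∈ V
    rw [σ.commutes]
    exact hV a ha)
  exact h1

instance (O : ValuationSubring R) : IsInvariantSubring (Ω ≃ₐ[R] Ω) (Bc (Ω := Ω) O) :=
  ⟨fun σ {x} hx => bc_map O σ x hx⟩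

/-- the inclusion of `O` -/
def bcI (O : ValuationSubring R) : O →+* Bc (Ω := Ω) O :=
  ((algebraMap R Ω).comp O.subtype).codRestrict (Bc (Ω := Ω) O) (fun a _ hV => hV a a.2)

instance (O : ValuationSubring R) : Algebra O (Bc (Ω := Ω) O) := (bcI O).toAlgebra

instance (O : ValuationSubring R) : SMulCommClass (Ω ≃ₐ[R] Ω) O (Bc (Ω := Ω) O) := by
  refine ⟨fun σ a x => ?_⟩
  apply Subtype.ext
  show σ (algebraMap R Ω a * x) = algebraMap R Ω a * σ x
  rw [map_mul, σ.commutes]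

theorem bc_inv [IsGalois R Ω] (O : ValuationSubring R) (V : ValuationSubring Ω)
    (hV : ∀ a : R, algebraMap R Ω a ∈ V ↔ a ∈ O) :
    Algebra.IsInvariant O (Bc (Ω := Ω) O) (Ω ≃ₐ[R] Ω) := by
  refine ⟨fun b hb => ?_⟩
  have h1 : (b : Ω) ∈ Set.range (algebraMap R Ω) := by
    rw [InfiniteGalois.mem_range_algebraMap_iff_fixed]
    intro σ
    exact congrArg Subtype.val (hb σ)
  obtain ⟨x, hx⟩ := h1
  have h2 : x ∈ O := by
    rw [← hV, hx]
    exact b.2 V (fun a ha => (hV a).2 ha)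
  exact ⟨⟨x, h2⟩, Subtype.ext hx⟩

instance [Algebra.IsIntegral R Ω] (O : ValuationSubring R) : 
    letI : TopologicalSpace (Bc (Ω := Ω) O) := ⊥
    ContinuousSMul (Ω ≃ₐ[R] Ω) (Bc (Ω := Ω) O) := by
  let _ : TopologicalSpace (Bc (Ω := Ω) O) := ⊥
  have _ : DiscreteTopology (Bc (Ω := Ω) O) := ⟨rfl⟩
  rw [continuousSMul_iff_stabilizer_isOpen]
  intro x
  have h1 := stabilizer_isOpen_of_isIntegral (K := R) (x : Ω)
  have h2 : (MulAction.stabilizer (Ω ≃ₐ[R] Ω) x : Set (Ω ≃ₐ[R] Ω)) = MulAction.stabilizer (Ω ≃ₐ[R] Ω) (x : Ω) := by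
    ext σ
    constructor
    · intro h
      exact congrArg Subtype.val h
    · intro h
      exact Subtype.ext h
  rw [h2]
  exact h1

/-- the prime ideal of a valuation ring -/
def bcP (O : ValuationSubring R) (V : ValuationSubring Ω)
    (hV : ∀ a : R, algebraMap R Ω a ∈ V ↔ a ∈ O) : Ideal (Bc (Ω := Ω) O) where
  carrier := {b | V.valuation (b : Ω) < 1}
  add_mem' := by
    intro a b ha hb
    have ha' : V.valuation (a : Ω) < 1 := ha
    have hb' : V.valuation (b : Ω) < 1 := hb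
    show V.valuation ((a : Ω) + (b : Ω)) < 1
    exact lt_of_le_of_lt (Valuation.map_add _ _ _) (max_lt ha' hb')
  zero_mem' := by
    show V.valuation ((0 : Bc (Ω := Ω) O) : Ω) < 1
    simp
  smul_mem' := by
    intro c b hb
    have hc : V.valuation (c : Ω) ≤ 1 :=
      (V.valuation_le_one_iff _).2 (c.2 V (fun a ha => (hV a).2 ha))
    show V.valuation ((c : Ω) * (b : Ω)) < 1
    rw [map_mul]
    calc V.valuation (c : Ω) * V.valuation (b : Ω) ≤ 1 * V.valuation (b : Ω) :=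
          mul_le_mul_left hc _
      _ < 1 := by rw [one_mul]; exact hb

theorem bcP_prime (O : ValuationSubring R) (V : ValuationSubring Ω)
    (hV : ∀ a : R, algebraMap R Ω a ∈ V ↔ a ∈ O) : (bcP O V hV).IsPrime := by
  constructor
  · rw [Ideal.ne_top_iff_one]
    intro h
    have h1 : V.valuation (1 : Ω) < 1 := h
    rw [map_one] at h1
    exact lt_irrefl _ h1
  · intro x y hxy
    have h1 : V.valuation ((x : Ω) * (y : Ω)) < 1 := hxy
    rw [map_mul] at h1
    by_contra hcon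
    push Not at hcon
    obtain ⟨hx, hy⟩ := hcon
    have hx1 : V.valuation (x : Ω) = 1 := le_antisymm
      ((V.valuation_le_one_iff _).2 (x.2 V (fun a ha => (hV a).2 ha))) (not_lt.1 hx)
    have hy1 : V.valuation (y : Ω) = 1 := le_antisymm
      ((V.valuation_le_one_iff _).2 (y.2 V (fun a ha => (hV a).2 ha))) (not_lt.1 hy)
    rw [hx1, hy1, mul_one] at h1
    exact lt_irrefl _ h1

/-- valuation rings with the same prime are equal -/
theorem conj_le [Algebra.IsAlgebraic R Ω] (O : ValuationSubring R) (V W : ValuationSubring Ω)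
    (hV : ∀ a : R, algebraMap R Ω a ∈ V ↔ a ∈ O) (hW : ∀ a : R, algebraMap R Ω a ∈ W ↔ a ∈ O)
    (h : ∀ b ∈ Bc (Ω := Ω) O, V.valuation b < 1 → W.valuation b < 1) (x : Ω) (hx : x ∈ W) : x ∈ V := by
  obtain ⟨u, hu1, hu2⟩ := conj_split O x (Algebra.IsAlgebraic.isAlgebraic x)
  have hu3 := hu2 W hW hx
  have huV := hu1 V (fun a ha => (hV a).2 ha)
  have huB : u ∈ Bc (Ω := Ω) O := fun V' hV' => (hu1 V' hV').1
  have hu4 : V.valuation u = 1 := by
    refine le_antisymm ((V.valuation_le_one_iff _).2 huV.1) ?_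
    by_contra hcon
    have h1 := h u huB (not_le.1 hcon)
    rw [hu3] at h1
    exact lt_irrefl _ h1
  rw [← V.valuation_le_one_iff]
  have h2 : V.valuation (x * u) ≤ 1 := (V.valuation_le_one_iff _).2 huV.2
  rwa [map_mul, hu4, mul_one] at h2

/-- the Galois group acts transitively on the extensions of a valuation ring -/
theorem conj_val [IsGalois R Ω] (V W : ValuationSubring Ω)
    (h : ∀ a : R, algebraMap R Ω a ∈ V ↔ algebraMap R Ω a ∈ W) :
    ∃ σ : Ω ≃ₐ[R] Ω, ∀ x, x ∈ W ↔ σ x ∈ V := by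
  let O : ValuationSubring R := W.comap (algebraMap R Ω)
  have hW : ∀ a : R, algebraMap R Ω a ∈ W ↔ a ∈ O := fun a => Iff.rfl
  have hV : ∀ a : R, algebraMap R Ω a ∈ V ↔ a ∈ O := fun a => (h a).trans (hW a)
  have hinv := bc_inv O W hW
  have _ := bcP_prime O V hV
  have _ := bcP_prime O W hW
  have hunder : (bcP O W hW).under O = (bcP O V hV).under O := by
    ext a
    have h1 : a ∈ (bcP O W hW).under O ↔ W.valuation (algebraMap R Ω a) < 1 := Iff.rfl
    have h2 : a ∈ (bcP O V hV).under O ↔ V.valuation (algebraMap R Ω a) < 1 := Iff.rfl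
    rw [h1, h2, cnv_val, cnv_val, ← map_inv₀, h]
  let _ : TopologicalSpace (Bc (Ω := Ω) O) := ⊥
  have _ : DiscreteTopology (Bc (Ω := Ω) O) := ⟨rfl⟩
  obtain ⟨σ, hσ⟩ := Algebra.IsInvariant.exists_smul_of_under_eq_of_profinite (A := O)
    (G := Ω ≃ₐ[R] Ω) (bcP O W hW) (bcP O V hV) hunder
  refine ⟨σ, ?_⟩
  have hkey : ∀ b ∈ Bc (Ω := Ω) O, (V.valuation (σ b) < 1 ↔ W.valuation b < 1) := by
    intro b hb
    have h1 : (σ • (⟨b, hb⟩ : Bc (Ω := Ω) O)) ∈ bcP O V hV ↔ (⟨b, hb⟩ : Bc (Ω := Ω) O) ∈ bcP O W hW := by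
      rw [hσ]
      exact Ideal.smul_mem_pointwise_smul_iff
    exact h1
  let V2 : ValuationSubring Ω := V.comap (σ : Ω →+* Ω)
  have hV2 : ∀ a : R, algebraMap R Ω a ∈ V2 ↔ a ∈ O := by
    intro a
    have h1 : algebraMap R Ω a ∈ V2 ↔ σ (algebraMap R Ω a) ∈ V := Iff.rfl
    rw [h1, σ.commutes, hV]
  have hval : ∀ b : Ω, V2.valuation b < 1 ↔ V.valuation (σ b) < 1 := by
    intro b
    rw [cnv_val, cnv_val]
    have h1 : b⁻¹ ∈ V2 ↔ (σ b)⁻¹ ∈ V := by
      rw [← map_inv₀]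
      exact Iff.rfl
    rw [h1, map_eq_zero]
  intro x
  constructor
  · intro hx
    exact conj_le O V2 W hV2 hW (fun b hb hb1 => (hkey b hb).1 ((hval b).1 hb1)) x hx
  · intro hx
    exact conj_le O W V2 hW hV2 (fun b hb hb1 => (hval b).2 ((hkey b hb).2 hb1)) x hx

end conj

end Pool.Agent.Helper82.SN
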