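import Pool.Agent.Helper82.SN.Ext

/-!
# A geometric section commutes with a nontrivial automorphism
-/

set_option autoImplicit false

namespace Pool.Agent.Helper82.SN

open Pool.Agent.Helper14.BSC Polynomial IntermediateField

theorem sn_conv (hKUM : ST_KUM) (hBOT : ST_BOT) {k K Ω : Type} [Field k] [Field K] [Field Ω]
    [Algebra k K] [Algebra K Ω] [Algebra k Ω] [IsScalarTower k K Ω] [CharZero k] [IsAlgClosed Ω]
    [Algebra.IsAlgebraic K Ω] (D : Sec k Ω)
    (htr : ∃ t : K, Transcendental k t ∧ Algebra.IsAlgebraic (IntermediateField.adjoin k {t}) K)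
    (hfix : ∀ (g : GG k Ω) (x : K), D.s g (algebraMap K Ω x) = algebraMap K Ω x)
    (O : ValuationSubring K) (hO : GeoV k K Ω D O) :
    ∃ τ : Ω ≃+* Ω, (∀ a : Acl k Ω, τ (a : Ω) = a) ∧ (∀ (g : GG k Ω) (x : Ω), τ (D.s g x) = D.s g (τ x)) ∧
      ∃ x, τ x ≠ x := by
  classical
  obtain ⟨hO1, hO2, hO3, W, hO4, hinv⟩ := hO
  have hmem : ∀ x : K, algebraMap K Ω x ∈ W ↔ x ∈ O := by
    intro x
    rw [← hO4]
    exact Iff.rfl
  have hk : ∀ c : k, algebraMap k Ω c ∈ W := by
    intro c
    rw [IsScalarTower.algebraMap_apply k K Ω]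
    exact (hmem _).2 (hO2 c)
  have hresK : ∀ a : K, algebraMap K Ω a ∈ W →
      ∃ c : k, W.valuation (algebraMap K Ω a - algebraMap k Ω c) < 1 := by
    intro a ha
    obtain ⟨c, hc⟩ := hO3 a ((hmem a).1 ha)
    refine ⟨c, ?_⟩
    rw [IsScalarTower.algebraMap_apply k K Ω, ← map_sub]
    rw [cnv_val] at hc ⊢
    rcases hc with hc | hc
    · left; rw [hc, map_zero]
    · right
      rw [← map_inv₀, hmem]
      exact hc
  have hresA : ∀ x ∈ W, ∃ a : Acl k Ω, W.valuation (x - a) < 1 := by
    intro x hx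
    obtain ⟨f, hf, hfx⟩ := res_red K W hresK x hx (Algebra.IsAlgebraic.isAlgebraic _)
    exact res_root W hk x f hf hfx
  -- a uniformizing parameter
  obtain ⟨z, hz⟩ : ∃ z : K, z ∉ O := by
    by_contra hcon
    push Not at hcon
    exact hO1 (by rw [eq_top_iff]; intro x _; exact hcon x)
  have hz0 : z ≠ 0 := by
    rintro rfl
    exact hz (zero_mem O)
  set t : Ω := algebraMap K Ω z⁻¹ with ht
  have ht0 : t ≠ 0 := by
    rw [ht]
    exact (_root_.map_ne_zero _).2 (inv_ne_zero hz0)
  have htv : W.valuation t < 1 := by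
    rw [cnv_val]
    right
    rw [ht, map_inv₀, inv_inv, hmem]
    exact hz
  have hvt0 : W.valuation t ≠ 0 := (Valuation.ne_zero_iff _).2 ht0
  have htL : t ∈ LL D := fun g _ => hfix g _
  have htfix : ∀ g : GG k Ω, D.s g t = t := fun g => hfix g _
  have httr : Transcendental k t := by
    intro h
    rw [res_valg1 W hk t h ht0] at htv
    exact lt_irrefl _ htv
  have halgF : ∀ F : IntermediateField (Acl k Ω) Ω, t ∈ F → Algebra.IsAlgebraic F Ω :=
    fun F hF => val_alg htr t httr F hF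
  -- roots of the parameter
  have hroot : ∀ n : ℕ, ∃ y : Ω, 0 < n → (∀ g : GG k Ω, D.s g y = y) ∧
      ∃ c : k, c ≠ 0 ∧ t = algebraMap k Ω c * y ^ n := by
    intro n
    by_cases hn : 0 < n
    · obtain ⟨c, hc0, y, hy0, hxy⟩ := hKUM k Ω D ∅ n hn ⟨t, htL⟩ (fun h => ht0 (congrArg Subtype.val h))
      obtain ⟨c0, hc0'⟩ := hBOT k Ω (c : Acl k Ω) c.2
      refine ⟨y, fun _ => ⟨fun g => y.2 g (fun a ha => absurd ha (Set.notMem_empty a)), c0, ?_, ?_⟩⟩
      · rintro rfl
        apply hc0
        apply Subtype.ext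
        rw [hc0', map_zero]
        rfl
      · have h1 : t = ((c : Acl k Ω) : Ω) * (y : Ω) ^ n := congrArg Subtype.val hxy
        rw [h1, hc0']
        rfl
    · exact ⟨0, fun h => absurd h hn⟩
  choose G hG using hroot
  have hGfix : ∀ n, 0 < n → ∀ g : GG k Ω, D.s g (G n) = G n := fun n hn => (hG n hn).1
  have hGt : ∀ n, 0 < n → ∃ c : k, c ≠ 0 ∧ t = algebraMap k Ω c * G n ^ n := fun n hn => (hG n hn).2
  have hGv : ∀ n, 0 < n → W.valuation (G n) ^ n = W.valuation t := by
    intro n hn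
    obtain ⟨c, hc, h⟩ := hGt n hn
    conv_rhs => rw [h]
    rw [map_mul, map_pow, res_vk W hk c hc, one_mul]
  have hG0 : ∀ n, 0 < n → G n ≠ 0 := by
    intro n hn h
    have h1 := hGv n hn
    rw [h, map_zero, zero_pow hn.ne'] at h1
    exact hvt0 h1.symm
  have hGlt : ∀ n, 0 < n → W.valuation (G n) < 1 := by
    intro n hn
    by_contra hcon
    have h1 := one_le_pow₀ (not_lt.1 hcon) (n := n)
    rw [hGv n hn] at h1
    exact absurd htv (not_lt.2 h1)
  -- one-units
  have h1t : W.valuation (1 + t) = 1 := by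
    rw [Valuation.map_add_eq_of_lt_left _ (by rw [map_one]; exact htv), map_one]
  have h1t0 : 1 + t ≠ 0 := by
    intro h
    rw [h, map_zero] at h1t
    exact zero_ne_one h1t
  have hu : W.valuation ((1 + t)⁻¹ - 1) < 1 := by
    have h1 : (1 + t)⁻¹ - 1 = - t / (1 + t) := by
      field_simp
      ring
    rw [h1, map_div₀, h1t, div_one, Valuation.map_neg]
    exact htv
  have hUex : ∀ n : ℕ, ∃ r : Ω, 0 < n → r ^ n = (1 + t)⁻¹ ∧ W.valuation (r - 1) < 1 := by
    intro n
    by_cases hn : 0 < n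
    · obtain ⟨r, hr⟩ := ine_root W _ hu n hn
      exact ⟨r, fun _ => hr⟩
    · exact ⟨0, fun h => absurd h hn⟩
  choose U hU using hUex
  have hUfix : ∀ n, 0 < n → ∀ g : GG k Ω, D.s g (U n) = U n := by
    intro n hn g
    apply ine_uniq W hk _ _ _ (hU n hn).2 n hn
    · rw [← map_pow, (hU n hn).1, map_inv₀, map_add, map_one, htfix]
    · have h1 := hen_inv W (D.s g).toRingEquiv (fun x => hinv g x) _ (hU n hn).2
      have h2 : (D.s g).toRingEquiv (U n - 1) = D.s g (U n) - 1 := by
        show D.s g (U n - 1) = _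
        rw [map_sub, map_one]
      rwa [h2] at h1
  -- the chain
  have hfac : ∀ j : ℕ, 0 < j.factorial := Nat.factorial_pos
  have hdex : ∀ j : ℕ, ∃ d : Acl k Ω, d ≠ 0 ∧ G (j + 1).factorial ^ (j + 1) = d * G j.factorial := by
    intro j
    obtain ⟨c, hc, h1⟩ := hGt _ (hfac j)
    obtain ⟨c', hc', h2⟩ := hGt _ (hfac (j + 1))
    have hcΩ : algebraMap k Ω c ≠ 0 := (_root_.map_ne_zero _).2 hc
    have hcΩ' : algebraMap k Ω c' ≠ 0 := (_root_.map_ne_zero _).2 hc'
    set r : Ω := G (j + 1).factorial ^ (j + 1) / G j.factorial with hr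
    have hG0j := hG0 _ (hfac j)
    have hr1 : r ^ j.factorial = algebraMap k Ω (c / c') := by
      rw [hr, div_pow, ← pow_mul, ← Nat.factorial_succ, map_div₀, div_eq_div_iff (pow_ne_zero _ hG0j) hcΩ']
      rw [mul_comm, ← h2, ← h1]
    have hr2 : IsAlgebraic k r := by
      refine ⟨X ^ j.factorial - C (c / c'), (monic_X_pow_sub_C _ (hfac j).ne').ne_zero, ?_⟩
      rw [map_sub, map_pow, aeval_X, aeval_C, hr1, sub_self]
    refine ⟨⟨r, mem_algebraicClosure_iff.2 hr2⟩, ?_, ?_⟩
    · intro h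
      have h3 : r = 0 := congrArg Subtype.val h
      rw [h3, zero_pow (hfac j).ne', eq_comm, map_div₀, div_eq_zero_iff] at hr1
      rcases hr1 with h4 | h4
      · exact hcΩ h4
      · exact hcΩ' h4
    · show _ = r * _
      rw [hr, div_mul_cancel₀ _ hG0j]
  choose d hd0 hd using hdex
  have hUrel : ∀ j : ℕ, U (j + 1).factorial ^ (j + 1) = U j.factorial := by
    intro j
    apply ine_uniq W hk _ _ (ine_pow W (hU _ (hfac (j + 1))).2 (j + 1)) (hU _ (hfac j)).2 j.factorial (hfac j)
    rw [← pow_mul, ← Nat.factorial_succ, (hU _ (hfac (j + 1))).1, (hU _ (hfac j)).1]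
  obtain ⟨c1, hc1, hc1t⟩ := hGt 1 one_pos
  have hc1Ω : algebraMap k Ω c1 ≠ 0 := (_root_.map_ne_zero _).2 hc1
  rw [pow_one] at hc1t
  have hU1 : U 1 = (1 + t)⁻¹ := by
    have := (hU 1 one_pos).1
    rwa [pow_one] at this
  have hkF : ∀ (F : IntermediateField (Acl k Ω) Ω) (c : k), algebraMap k Ω c ∈ F := by
    intro F c
    have : algebraMap k Ω c = algebraMap (Acl k Ω) Ω (algebraMap k (Acl k Ω) c) := rfl
    rw [this]
    exact IntermediateField.algebraMap_mem F _
  obtain ⟨τ, hτA, hτW, hτy⟩ := ext_auto W hk (fun j => G j.factorial) (fun j => G j.factorial * U j.factorial)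
    (fun j => hGlt _ (hfac j)) (fun j => hG0 _ (hfac j))
    (fun j => by rw [map_mul, ine_near W (hU _ (hfac j)).2, mul_one]) d hd0 (fun j => j + 1) hd
    (fun j => by
      show (G (j + 1).factorial * U (j + 1).factorial) ^ (j + 1) = d j * (G j.factorial * U j.factorial)
      rw [mul_pow, hd, hUrel, mul_assoc])
    (fun F hF => by
      apply halgF F
      rw [hc1t]
      exact mul_mem (hkF F c1) hF)
    (fun F hF => by
      apply halgF F
      have hF' : G 1 * U 1 ∈ F := hF
      have h1 : algebraMap k Ω c1 * (G 1 * U 1) ∈ F := mul_mem (hkF F c1) hF'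
      have h2 : t = (algebraMap k Ω c1 * (G 1 * U 1)) / (1 - algebraMap k Ω c1 * (G 1 * U 1)) := by
        rw [← mul_assoc, ← hc1t, hU1]
        have h3 : 1 - t * (1 + t)⁻¹ ≠ 0 := by
          have h4 : 1 - t * (1 + t)⁻¹ = (1 + t)⁻¹ := by field_simp; ring
          rw [h4]
          exact inv_ne_zero h1t0
        rw [eq_div_iff h3]
        field_simp
        ring
      rw [h2]
      exact div_mem h1 (sub_mem (one_mem F) h1))
  have hτt : τ t = t / (1 + t) := by
    have h1 := hτy 0
    have h2 : τ (G 1) = G 1 * U 1 := h1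
    have h3 : τ (algebraMap k Ω c1) = algebraMap k Ω c1 := hτA (algebraMap k (Acl k Ω) c1)
    conv_lhs => rw [hc1t]
    rw [map_mul, h2, h3, ← mul_assoc, ← hc1t, hU1, div_eq_mul_inv]
  refine ⟨τ, hτA, ?_, t, ?_⟩
  · intro g
    -- the commutator
    set ι : Ω ≃+* Ω := ((D.s g).toRingEquiv.trans τ).trans
      ((D.s g).toRingEquiv.symm.trans τ.symm) with hι
    have hιx : ∀ x, ι x = τ.symm ((D.s g).symm (τ (D.s g x))) := fun x => rfl
    have hιA : ∀ a : Acl k Ω, ι a = a := by
      intro a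
      rw [hιx, D.ext, hτA, ← D.ext, AlgEquiv.symm_apply_apply, RingEquiv.symm_apply_eq, hτA]
    have hsymm : ∀ x, (D.s g).symm x ∈ W ↔ x ∈ W := by
      intro x
      rw [← hinv g ((D.s g).symm x), AlgEquiv.apply_symm_apply]
    have hτsymm : ∀ x, τ.symm x ∈ W ↔ x ∈ W := by
      intro x
      rw [← hτW (τ.symm x), RingEquiv.apply_symm_apply]
    have hιW : ∀ x, ι x ∈ W ↔ x ∈ W := by
      intro x
      rw [hιx, hτsymm, hsymm, hτW, hinv]
    have hιy : ∀ j : ℕ, ι (G j.factorial) = G j.factorial := by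
      intro j
      have h1 : (D.s g).symm (G j.factorial * U j.factorial) = G j.factorial * U j.factorial := by
        rw [AlgEquiv.symm_apply_eq, map_mul, hGfix _ (hfac j), hUfix _ (hfac j)]
      rw [hιx, hGfix _ (hfac j), hτy j, h1, RingEquiv.symm_apply_eq]
      exact (hτy j).symm
    have hιt : ι t = t := by
      have h1 : ι (G 1) = G 1 := hιy 0
      have h2 : ι (algebraMap k Ω c1) = algebraMap k Ω c1 := hιA (algebraMap k (Acl k Ω) c1)
      rw [hc1t, map_mul, h1, h2]
    have halgt := halgF (IntermediateField.adjoin (Acl k Ω) {t})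
      (IntermediateField.mem_adjoin_simple_self _ _)
    have heig : ∀ (y : Ω) (ζ : Acl k Ω), ι y = ζ * y → y ≠ 0 → ζ = 1 := by
      intro y ζ hy hy0
      refine ine_eig W hk hresA t htv ht0 halgt (fun n => G n.factorial ^ (n - 1).factorial) ?_ ι hιA hιW ?_
        y ζ hy hy0
      · intro n hn
        show W.valuation (G n.factorial ^ (n - 1).factorial) ^ n = _
        have h1 : (n - 1).factorial * n = n.factorial := by
          rw [mul_comm]
          exact Nat.mul_factorial_pred hn.ne'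
        rw [map_pow, ← pow_mul, h1, hGv _ (hfac n)]
      · intro n hn
        show ι (G n.factorial ^ (n - 1).factorial) = _
        rw [map_pow, hιy]
    have hall : ∀ x, ι x = x := by
      intro x
      obtain ⟨m, hm, hmx⟩ := ine_fin (IntermediateField.adjoin (Acl k Ω) {t}).toSubfield
        (fun x => halgt.isAlgebraic x) ι (by
          intro w hw
          have hw' : w ∈ IntermediateField.adjoin (Acl k Ω) {t} := hw
          induction hw' using IntermediateField.adjoin_induction with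
          | mem y hy => rw [Set.mem_singleton_iff] at hy; rw [hy, hιt]
          | algebraMap c => exact hιA c
          | add a b _ _ ha hb => rw [map_add, ha ‹_›, hb ‹_›]
          | inv a _ ha => rw [map_inv₀, ha ‹_›]
          | mul a b _ _ ha hb => rw [map_mul, ha ‹_›, hb ‹_›]) x
      exact ine_dft ι hιA heig x m hm hmx
    intro x
    have h1 := hall x
    rw [hιx, RingEquiv.symm_apply_eq, AlgEquiv.symm_apply_eq] at h1
    exact h1
  · rw [hτt]
    intro h
    rw [div_eq_iff h1t0] at h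
    have h2 : t * t = 0 := by linear_combination -h
    exact ht0 (mul_self_eq_zero.1 h2)

end Pool.Agent.Helper82.SN
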