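import Pool.Agent.Helper82.SN.Inert

/-!
# Construction of automorphisms preserving a valuation ring
-/

set_option autoImplicit false

namespace Pool.Agent.Helper82.SN

open Pool.Agent.Helper14.BSC Polynomial IntermediateField

variable {k Ω : Type} [Field k] [Field Ω] [Algebra k Ω]

/-- the embedding of `A(y)` sending `y` to `y'` -/
noncomputable def rho (y y' : Ω) (h : Transcendental (Acl k Ω) y) (h' : Transcendental (Acl k Ω) y') :
    IntermediateField.adjoin (Acl k Ω) {y} →ₐ[Acl k Ω] Ω :=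
  (IntermediateField.adjoin (Acl k Ω) {y'}).val.comp
    ((RatFunc.algEquivOfTranscendental y' h').toAlgHom.comp
      (RatFunc.algEquivOfTranscendental y h).symm.toAlgHom)

theorem rho_gen (y y' : Ω) (h : Transcendental (Acl k Ω) y) (h' : Transcendental (Acl k Ω) y') :
    rho y y' h h' (IntermediateField.AdjoinSimple.gen (Acl k Ω) y) = y' := by
  show ((RatFunc.algEquivOfTranscendental y' h' ((RatFunc.algEquivOfTranscendental y h).symm
    (IntermediateField.AdjoinSimple.gen (Acl k Ω) y)) : IntermediateField.adjoin (Acl k Ω) {y'}) : Ω) = y'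
  rw [RatFunc.algEquivOfTranscendental_symm_gen, RatFunc.algEquivOfTranscendental_X]

theorem rho_val (W : ValuationSubring Ω) (hk : ∀ c : k, algebraMap k Ω c ∈ W) (y y' : Ω)
    (h : Transcendental (Acl k Ω) y) (h' : Transcendental (Acl k Ω) y')
    (hy : W.valuation y < 1) (hyy : W.valuation y' = W.valuation y)
    (x : IntermediateField.adjoin (Acl k Ω) {y}) :
    W.valuation (rho y y' h h' x) = W.valuation (x : Ω) := by
  obtain ⟨P, Q, hPQ⟩ := (IntermediateField.mem_adjoin_simple_iff (Acl k Ω) (x : Ω)).1 x.2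
  have hval : ∀ R : (Acl k Ω)[X], W.valuation (aeval y' R) = W.valuation (aeval y R) := by
    intro R
    by_cases hR : R = 0
    · simp [hR]
    · rw [val_poly W hk y hy R hR, val_poly W hk y' (by rw [hyy]; exact hy) R hR, hyy]
  have hx : x = aeval (IntermediateField.AdjoinSimple.gen (Acl k Ω) y) P /
      aeval (IntermediateField.AdjoinSimple.gen (Acl k Ω) y) Q := by
    apply Subtype.ext
    rw [hPQ]
    have h1 : ∀ R : (Acl k Ω)[X], ((aeval (IntermediateField.AdjoinSimple.gen (Acl k Ω) y) R :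
        IntermediateField.adjoin (Acl k Ω) {y}) : Ω) = aeval y R := by
      intro R
      have h2 := aeval_algHom_apply (IntermediateField.adjoin (Acl k Ω) {y}).val
        (IntermediateField.AdjoinSimple.gen (Acl k Ω) y) R
      exact h2.symm
    show aeval y P / aeval y Q = _
    rw [← h1 P, ← h1 Q]
    rfl
  have hρ : ∀ R : (Acl k Ω)[X], rho y y' h h' (aeval (IntermediateField.AdjoinSimple.gen (Acl k Ω) y) R) =
      aeval y' R := by
    intro R
    rw [← aeval_algHom_apply, rho_gen]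
  rw [hPQ]
  rw [hx, map_div₀, hρ, hρ, map_div₀, map_div₀, hval, hval]

theorem ext_auto [CharZero k] [IsAlgClosed Ω] (W : ValuationSubring Ω) (hk : ∀ c : k, algebraMap k Ω c ∈ W)
    (y y' : ℕ → Ω) (hy : ∀ j, W.valuation (y j) < 1) (hy0 : ∀ j, y j ≠ 0)
    (hyy : ∀ j, W.valuation (y' j) = W.valuation (y j))
    (d : ℕ → Acl k Ω) (hd : ∀ j, d j ≠ 0) (e : ℕ → ℕ)
    (hrel : ∀ j, y (j + 1) ^ e j = d j * y j) (hrel' : ∀ j, y' (j + 1) ^ e j = d j * y' j)
    (halg : ∀ F : IntermediateField (Acl k Ω) Ω, y 0 ∈ F → Algebra.IsAlgebraic F Ω)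
    (halg' : ∀ F : IntermediateField (Acl k Ω) Ω, y' 0 ∈ F → Algebra.IsAlgebraic F Ω) :
    ∃ τ : Ω ≃+* Ω, (∀ a : Acl k Ω, τ a = a) ∧ (∀ x, τ x ∈ W ↔ x ∈ W) ∧ ∀ j, τ (y j) = y' j := by
  classical
  have hchar : CharZero Ω := charZero_of_injective_algebraMap (algebraMap k Ω).injective
  have hy0' : ∀ j, y' j ≠ 0 := by
    intro j
    rw [← Valuation.ne_zero_iff W.valuation, hyy, Valuation.ne_zero_iff]
    exact hy0 j
  have htr : ∀ j, Transcendental (Acl k Ω) (y j) := fun j => val_tr W hk _ (hy j) (hy0 j)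
  have htr' : ∀ j, Transcendental (Acl k Ω) (y' j) := fun j =>
    val_tr W hk _ (by rw [hyy]; exact hy j) (hy0' j)
  let Lf : ℕ → Lifts (Acl k Ω) Ω Ω := fun j =>
    ⟨IntermediateField.adjoin (Acl k Ω) {y j}, rho (y j) (y' j) (htr j) (htr' j)⟩
  have hdΩ : ∀ j, (d j : Ω) ≠ 0 := fun j h => hd j (Subtype.ext h)
  have hstep : ∀ j, Lf j ≤ Lf (j + 1) := by
    intro j
    have hgen : y (j + 1) ∈ IntermediateField.adjoin (Acl k Ω) {y (j + 1)} :=
      IntermediateField.mem_adjoin_simple_self _ _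
    have hyj : y j = (d j : Ω)⁻¹ * y (j + 1) ^ e j := by
      rw [hrel j, ← mul_assoc, inv_mul_cancel₀ (hdΩ j), one_mul]
    have hmem : y j ∈ IntermediateField.adjoin (Acl k Ω) {y (j + 1)} := by
      rw [hyj]
      exact mul_mem (inv_mem (IntermediateField.algebraMap_mem _ (d j))) (pow_mem hgen _)
    have hle : IntermediateField.adjoin (Acl k Ω) {y j} ≤ IntermediateField.adjoin (Acl k Ω) {y (j + 1)} := by
      rw [IntermediateField.adjoin_le_iff]
      rintro z hz
      rw [Set.mem_singleton_iff] at hz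
      rw [hz]
      exact hmem
    rw [Lifts.le_iff]
    refine ⟨hle, ?_⟩
    apply IntermediateField.adjoin_algHom_ext
    intro z hz
    rw [Set.mem_singleton_iff] at hz
    subst hz
    have h1 : rho (y j) (y' j) (htr j) (htr' j) ⟨y j, IntermediateField.subset_adjoin _ _ rfl⟩ = y' j :=
      rho_gen _ _ _ _
    have h2 : rho (y (j + 1)) (y' (j + 1)) (htr (j + 1)) (htr' (j + 1)) ⟨y j, hmem⟩ = y' j := by
      have h3 : (⟨y j, hmem⟩ : IntermediateField.adjoin (Acl k Ω) {y (j + 1)}) =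
          (algebraMap (Acl k Ω) _ (d j))⁻¹ *
            (IntermediateField.AdjoinSimple.gen (Acl k Ω) (y (j + 1))) ^ e j := Subtype.ext hyj
      rw [h3, map_mul, map_inv₀, AlgHom.commutes, map_pow, rho_gen, hrel' j]
      show (d j : Ω)⁻¹ * ((d j : Ω) * y' j) = y' j
      rw [← mul_assoc, inv_mul_cancel₀ (hdΩ j), one_mul]
    show rho (y (j + 1)) (y' (j + 1)) (htr (j + 1)) (htr' (j + 1)) ⟨y j, hmem⟩ = 
      rho (y j) (y' j) (htr j) (htr' j) ⟨y j, IntermediateField.subset_adjoin _ _ rfl⟩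
    rw [h1, h2]
  have hmono : Monotone Lf := monotone_nat_of_le_succ hstep
  have hchain : IsChain (· ≤ ·) (Set.range Lf) := hmono.isChain_range
  set L := Lifts.union (Set.range Lf) hchain with hL
  have hle : ∀ j, Lf j ≤ L := fun j => Lifts.le_union _ hchain ⟨j, rfl⟩
  have hLmem : ∀ x ∈ L.carrier, ∃ j, x ∈ (Lf j).carrier := by
    intro x hx
    rw [hL, Lifts.carrier_union] at hx
    have hdir : Directed (· ≤ ·) (fun i : Set.range Lf => i.1.carrier) := by
      rintro ⟨_, a, rfl⟩ ⟨_, b, rfl⟩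
      exact ⟨⟨_, max a b, rfl⟩, (hmono (le_max_left a b)).1, (hmono (le_max_right a b)).1⟩
    have hne : Nonempty (Set.range Lf) := ⟨⟨_, 0, rfl⟩⟩
    have h1 := IntermediateField.coe_iSup_of_directed hdir
    have h2 : x ∈ ((⨆ i : Set.range Lf, i.1.carrier : IntermediateField (Acl k Ω) Ω) : Set Ω) := hx
    rw [h1, Set.mem_iUnion] at h2
    obtain ⟨⟨_, j, rfl⟩, hj⟩ := h2
    exact ⟨j, hj⟩
  -- values
  have hLval : ∀ x : L.carrier, W.valuation (L.emb x) = W.valuation (x : Ω) := by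
    intro x
    obtain ⟨j, hj⟩ := hLmem _ x.2
    obtain ⟨h1, h2⟩ := hle j
    have h3 := h2 ⟨(x : Ω), hj⟩
    have h4 : IntermediateField.inclusion h1 ⟨(x : Ω), hj⟩ = x := rfl
    rw [h4] at h3
    rw [h3]
    exact rho_val W hk (y j) (y' j) (htr j) (htr' j) (hy j) (hyy j) ⟨(x : Ω), hj⟩
  have hLy : ∀ j, ∃ h : y j ∈ L.carrier, L.emb ⟨y j, h⟩ = y' j := by
    intro j
    obtain ⟨h1, h2⟩ := hle j
    have hj : y j ∈ (Lf j).carrier := IntermediateField.mem_adjoin_simple_self _ _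
    refine ⟨h1 hj, ?_⟩
    have h3 := h2 ⟨y j, hj⟩
    have h5 : (Lf j).emb ⟨y j, hj⟩ = y' j := rho_gen _ _ _ _
    rw [← h5, ← h3]
    rfl
  -- extension to `Ω`
  have hLalg : Algebra.IsAlgebraic L.carrier Ω := halg L.carrier (hLy 0).1
  obtain ⟨φ, hφ⟩ := IntermediateField.exists_algHom_of_splits' L.emb (fun s =>
    ⟨(hLalg.isAlgebraic s).isIntegral, IsAlgClosed.splits _⟩)
  have hφL : ∀ x : L.carrier, φ (x : Ω) = L.emb x := by
    intro x
    rw [← hφ]
    rfl
  have hφy : ∀ j, φ (y j) = y' j := by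
    intro j
    obtain ⟨h1, h2⟩ := hLy j
    rw [← h2]
    exact hφL ⟨y j, h1⟩
  have hsurj : Function.Surjective φ := by
    have h1 : Algebra.IsAlgebraic φ.fieldRange Ω := halg' φ.fieldRange ⟨y 0, hφy 0⟩
    let e : Ω ≃+* φ.fieldRange := RingEquiv.ofBijective (φ.toRingHom.rangeRestrict)
      ⟨fun a b hab => φ.toRingHom.injective (congrArg Subtype.val hab), fun b => by
        obtain ⟨_, a, rfl⟩ := b
        exact ⟨a, rfl⟩⟩
    have h2 : IsAlgClosed φ.fieldRange := IsAlgClosed.of_ringEquiv Ω φ.fieldRange e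
    intro x
    obtain ⟨z, hz⟩ := (IsAlgClosed.algebraMap_bijective_of_isIntegral (k := φ.fieldRange) (K := Ω)).2 x
    obtain ⟨_, a, rfl⟩ := z
    exact ⟨a, hz⟩
  let φe : Ω ≃+* Ω := RingEquiv.ofBijective φ.toRingHom ⟨φ.toRingHom.injective, hsurj⟩
  have hclos : IsAlgClosure L.carrier Ω := ⟨inferInstance, hLalg⟩
  have hnorm : Normal L.carrier Ω := IsAlgClosure.normal _ _
  have hgal : IsGalois L.carrier Ω := IsGalois.mk
  let V : ValuationSubring Ω := W.comap φ.toRingHom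
  obtain ⟨σ, hσ⟩ := conj_val (R := L.carrier) V W (by
    intro a
    have h1 : algebraMap L.carrier Ω a ∈ V ↔ φ (a : Ω) ∈ W := Iff.rfl
    rw [h1, hφL, ← W.valuation_le_one_iff, ← W.valuation_le_one_iff, hLval]
    rfl)
  refine ⟨(σ : Ω ≃+* Ω).trans φe, ?_, ?_, ?_⟩
  · intro a
    show φ (σ (a : Ω)) = a
    have h1 : (a : Ω) ∈ L.carrier := IntermediateField.algebraMap_mem _ a
    have h2 : σ (a : Ω) = a := σ.commutes ⟨(a : Ω), h1⟩
    rw [h2]
    exact φ.commutes a
  · intro x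
    rw [hσ x]
    exact Iff.rfl
  · intro j
    show φ (σ (y j)) = y' j
    have h2 : σ (y j) = y j := σ.commutes ⟨y j, (hLy j).1⟩
    rw [h2, hφy]

end Pool.Agent.Helper82.SN
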