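import Pool.Agent.Helper82.SN.Val

/-!
# Roots of one-units and the faithfulness of inertia on the roots of a uniformizer
-/

set_option autoImplicit false

namespace Pool.Agent.Helper82.SN

open Pool.Agent.Helper14.BSC Polynomial

variable {k Ω : Type} [Field k] [Field Ω] [Algebra k Ω]

/-- existence of roots close to one -/
theorem ine_root [IsAlgClosed Ω] (W : ValuationSubring Ω) (x : Ω) (hx : W.valuation (x - 1) < 1)
    (n : ℕ) (hn : 0 < n) : ∃ r : Ω, r ^ n = x ∧ W.valuation (r - 1) < 1 := by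
  classical
  let P : Polynomial Ω := Polynomial.X ^ n - Polynomial.C x
  have hmon : P.Monic := Polynomial.monic_X_pow_sub_C _ hn.ne'
  have hsplit := IsAlgClosed.splits P
  have hprod : P = (P.roots.map fun a => Polynomial.X - Polynomial.C a).prod := by
    have := hsplit.eq_prod_roots
    rwa [hmon.leadingCoeff, map_one, one_mul] at this
  have heval : 1 - x = (P.roots.map fun a => 1 - a).prod := by
    have h1 : P.eval 1 = 1 - x := by simp [P]
    rw [← h1]
    conv_lhs => rw [hprod]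
    rw [Polynomial.eval_multiset_prod, Multiset.map_map]
    simp
  have hx' : W.valuation (1 - x) < 1 := by
    rw [Valuation.map_sub_swap]
    exact hx
  rw [heval] at hx'
  obtain ⟨r, hr, hr1⟩ := res_prod W 1 P.roots hx'
  refine ⟨r, ?_, ?_⟩
  · have h1 := (Polynomial.mem_roots'.1 hr).2
    have h2 : r ^ n - x = 0 := by simpa [P] using h1
    exact sub_eq_zero.1 h2
  · rw [Valuation.map_sub_swap]
    exact hr1

theorem ine_near (W : ValuationSubring Ω) {x : Ω} (h : W.valuation (x - 1) < 1) :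
    W.valuation x = 1 := by
  apply hen_near
  rw [Valuation.map_sub_swap]
  exact h

theorem ine_div (W : ValuationSubring Ω) {x y : Ω} (hx : W.valuation (x - 1) < 1)
    (hy : W.valuation (y - 1) < 1) : W.valuation (x / y - 1) < 1 := by
  have hy1 := ine_near W hy
  have hy0 : y ≠ 0 := by
    rintro rfl
    rw [map_zero] at hy1
    exact zero_ne_one hy1
  have h1 : x / y - 1 = ((x - 1) - (y - 1)) / y := by
    field_simp
    ring
  rw [h1, map_div₀, hy1, div_one]
  exact (Valuation.map_sub _ _ _).trans_lt (max_lt hx hy)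

theorem ine_pow (W : ValuationSubring Ω) {x : Ω} (hx : W.valuation (x - 1) < 1) (n : ℕ) :
    W.valuation (x ^ n - 1) < 1 := by
  induction n with
  | zero => simp
  | succ n ih =>
    have h1 : x ^ (n + 1) - 1 = (x ^ n - 1) * x + (x - 1) := by ring
    rw [h1]
    refine Valuation.map_add_lt _ ?_ hx
    rw [map_mul, ine_near W hx, mul_one]
    exact ih

/-- uniqueness of roots close to one -/
theorem ine_uniq (W : ValuationSubring Ω) (hk : ∀ c : k, algebraMap k Ω c ∈ W) (x y : Ω)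
    (hx : W.valuation (x - 1) < 1) (hy : W.valuation (y - 1) < 1) (n : ℕ) (hn : 0 < n)
    (h : x ^ n = y ^ n) : x = y := by
  have hy1 := ine_near W hy
  have hy0 : y ≠ 0 := by
    rintro rfl
    rw [map_zero] at hy1
    exact zero_ne_one hy1
  have h1 := ine_div W hx hy
  have h2 : (x / y) ^ n = 1 := by
    rw [div_pow, h, div_self (pow_ne_zero _ hy0)]
  have h3 : IsAlgebraic k (x / y - 1) := by
    have h4 : IsAlgebraic k (x / y) := by
      refine ⟨X ^ n - C 1, (monic_X_pow_sub_C (1 : k) hn.ne').ne_zero, ?_⟩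
      rw [map_sub, map_pow, aeval_X, h2, map_one, map_one, sub_self]
    exact h4.sub (isAlgebraic_one)
  by_contra hne
  have h5 : x / y - 1 ≠ 0 := by
    intro h6
    exact hne ((div_eq_one_iff_eq hy0).1 (sub_eq_zero.1 h6))
  rw [res_valg1 W hk _ h3 h5] at h1
  exact lt_irrefl _ h1

/-- eigenvectors of automorphisms preserving `W` and the roots of the uniformizer have eigenvalue one -/
theorem ine_eig (W : ValuationSubring Ω) (hk : ∀ c : k, algebraMap k Ω c ∈ W)
    (hresA : ∀ x ∈ W, ∃ a : Acl k Ω, W.valuation (x - a) < 1)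
    (t : Ω) (ht : W.valuation t < 1) (ht0 : t ≠ 0)
    (halg : Algebra.IsAlgebraic (IntermediateField.adjoin (Acl k Ω) {t}) Ω)
    (G : ℕ → Ω) (hG : ∀ n, 0 < n → W.valuation (G n) ^ n = W.valuation t)
    (ι : Ω ≃+* Ω) (hA : ∀ a : Acl k Ω, ι a = a) (hW : ∀ x, ι x ∈ W ↔ x ∈ W)
    (hιG : ∀ n, 0 < n → ι (G n) = G n) (y : Ω) (ζ : Acl k Ω) (hy : ι y = ζ * y) (hy0 : y ≠ 0) :
    ζ = 1 := by
  obtain ⟨n, p, q, hn, hv⟩ := val_torsion W hk t ht ht0 halg y hy0
  have hvt : W.valuation t ≠ 0 := (Valuation.ne_zero_iff _).2 ht0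
  have hvG : W.valuation (G n) ≠ 0 := by
    intro h
    have := hG n hn
    rw [h, zero_pow hn.ne'] at this
    exact hvt this.symm
  have hGn0 : G n ≠ 0 := (Valuation.ne_zero_iff _).1 hvG
  -- z = y G^p / G^q is a unit
  set z : Ω := y * G n ^ p / G n ^ q with hz
  have hιz : ι z = ζ * z := by
    rw [hz, map_div₀, map_mul, map_pow, map_pow, hιG n hn, hy]
    ring
  have hvz : W.valuation z = 1 := by
    have h1 : W.valuation z ^ n = 1 := by
      rw [hz, map_div₀, map_mul, map_pow, map_pow, div_pow, mul_pow, ← pow_mul, ← pow_mul,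
        mul_comm p n, mul_comm q n, pow_mul, pow_mul, hG n hn, hv,
        div_self (pow_ne_zero _ hvt)]
    rcases lt_trichotomy (W.valuation z) 1 with h | h | h
    · exact absurd h1 (pow_lt_one₀ zero_le h hn.ne').ne
    · exact h
    · exact absurd h1 (one_lt_pow₀ h hn.ne').ne'
  obtain ⟨a, ha⟩ := hresA z ((W.valuation_le_one_iff _).1 hvz.le)
  have ha0 : a ≠ 0 := by
    rintro rfl
    have h1 : z - ((0 : Acl k Ω) : Ω) = z := sub_zero z
    rw [h1, hvz] at ha
    exact lt_irrefl _ ha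
  have ha1 := val_unit W hk a ha0
  have haΩ : (a : Ω) ≠ 0 := fun h => ha0 (Subtype.ext h)
  set w : Ω := z / a with hw
  have hw1 : W.valuation (w - 1) < 1 := by
    have h1 : w - 1 = (z - a) / a := by rw [hw]; field_simp
    rw [h1, map_div₀, ha1, div_one]
    exact ha
  have hιw : ι w = ζ * w := by
    rw [hw, map_div₀, hA, hιz]
    ring
  have hιw1 : W.valuation (ι w - 1) < 1 := by
    have h1 := hen_inv W ι hW (w - 1) hw1
    rwa [map_sub, map_one] at h1
  have hwv := ine_near W hw1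
  have h2 : W.valuation ((ζ : Ω) - 1) < 1 := by
    have h3 : ((ζ : Ω) - 1) * w = (ι w - 1) - (w - 1) := by rw [hιw]; ring
    have h4 : W.valuation (((ζ : Ω) - 1) * w) < 1 := by
      rw [h3]
      exact (Valuation.map_sub _ _ _).trans_lt (max_lt hιw1 hw1)
    rwa [map_mul, hwv, mul_one] at h4
  by_contra hne
  have h3 : ζ - 1 ≠ 0 := fun h => hne (sub_eq_zero.1 h)
  have h4 := val_unit W hk (ζ - 1) h3
  have h5 : ((ζ - 1 : Acl k Ω) : Ω) = (ζ : Ω) - 1 := rfl
  rw [h5] at h4
  rw [h4] at h2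
  exact lt_irrefl _ h2

/-- an automorphism of finite order on `x`, without nontrivial eigenvalues, fixes `x` -/
theorem ine_dft [CharZero k] [IsAlgClosed Ω] (ι : Ω ≃+* Ω) (hA : ∀ a : Acl k Ω, ι a = a)
    (heig : ∀ (y : Ω) (ζ : Acl k Ω), ι y = ζ * y → y ≠ 0 → ζ = 1) (x : Ω) (m : ℕ) (hm : 0 < m)
    (hx : (ι ^ m) x = x) : ι x = x := by
  classical
  have hchar : CharZero Ω := charZero_of_injective_algebraMap (algebraMap k Ω).injective
  have hcA : CharZero (Acl k Ω) := charZero_of_injective_algebraMap (algebraMap k (Acl k Ω)).injective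
  have hac : IsAlgClosed (Acl k Ω) := IsAlgClosure.isAlgClosed k
  have : NeZero (m : Acl k Ω) := ⟨Nat.cast_ne_zero.2 hm.ne'⟩
  obtain ⟨ζ, hζ⟩ := HasEnoughRootsOfUnity.exists_primitiveRoot (Acl k Ω) m
  have hζ0 : ζ ≠ 0 := hζ.ne_zero hm.ne'
  have hζm : ζ ^ m = 1 := hζ.pow_eq_one
  -- the components
  let Y : ℕ → Ω := fun j => ∑ i ∈ Finset.range m, ((ζ⁻¹ ^ (i * j) : Acl k Ω) : Ω) * (ι ^ i) x
  have hY : ∀ j, ι (Y j) = ((ζ ^ j : Acl k Ω) : Ω) * Y j := by
    intro j
    have h1 : ι (Y j) = ∑ i ∈ Finset.range m, ((ζ⁻¹ ^ (i * j) : Acl k Ω) : Ω) * (ι ^ (i + 1)) x := by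
      rw [map_sum]
      refine Finset.sum_congr rfl (fun i _ => ?_)
      rw [map_mul, hA, pow_succ']
      rfl
    have h2 : ((ζ ^ j : Acl k Ω) : Ω) * Y j =
        ∑ i ∈ Finset.range m, ((ζ ^ j * ζ⁻¹ ^ (i * j) : Acl k Ω) : Ω) * (ι ^ i) x := by
      rw [Finset.mul_sum]
      refine Finset.sum_congr rfl (fun i _ => ?_)
      rw [← mul_assoc]
      rfl
    rw [h1, h2]
    set F : ℕ → Ω := fun i => ((ζ ^ j * ζ⁻¹ ^ (i * j) : Acl k Ω) : Ω) * (ι ^ i) x with hF
    have h3 : ∀ i, ((ζ⁻¹ ^ (i * j) : Acl k Ω) : Ω) * (ι ^ (i + 1)) x = F (i + 1) := by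
      intro i
      rw [hF]
      simp only
      congr 2
      rw [add_mul, one_mul, pow_add, mul_comm (ζ⁻¹ ^ (i * j)), ← mul_assoc, ← mul_pow,
        mul_inv_cancel₀ hζ0, one_pow, one_mul]
    rw [Finset.sum_congr rfl (fun i _ => h3 i)]
    have h4 : F m = F 0 := by
      rw [hF]
      simp only
      rw [hx, pow_zero, zero_mul, pow_zero]
      congr 2
      rw [mul_comm m j, pow_mul' ζ⁻¹ j m, inv_pow, hζm, inv_one, one_pow]
    have h5 := Finset.sum_range_succ F m
    have h6 := Finset.sum_range_succ' F m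
    rw [h5, h4] at h6
    exact (add_right_cancel h6).symm
  have hY0 : ∀ j, 0 < j → j < m → Y j = 0 := by
    intro j hj hjm
    by_contra hne
    have h1 := heig (Y j) (ζ ^ j) (hY j) hne
    have h2 := hζ.dvd_of_pow_eq_one j h1
    exact absurd (Nat.le_of_dvd hj h2) (not_le.2 hjm)
  have hsum : ∑ j ∈ Finset.range m, Y j = (m : Ω) * x := by
    rw [Finset.sum_comm]
    rw [Finset.sum_eq_single 0]
    · simp
    · intro i hi hi0
      rw [Finset.mem_range] at hi
      rw [← Finset.sum_mul]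
      have h1 : ∑ j ∈ Finset.range m, ((ζ⁻¹ ^ (i * j) : Acl k Ω) : Ω) = 0 := by
        have h2 : ∑ j ∈ Finset.range m, (ζ⁻¹ ^ (i * j) : Acl k Ω) = 0 := by
          have h3 : ∀ j, (ζ⁻¹ ^ (i * j) : Acl k Ω) = (ζ⁻¹ ^ i) ^ j := fun j => pow_mul _ _ _
          rw [Finset.sum_congr rfl (fun j _ => h3 j)]
          have h4 : (ζ⁻¹ ^ i) ≠ 1 := by
            intro h5
            have h6 := hζ.inv.dvd_of_pow_eq_one i h5
            exact absurd (Nat.le_of_dvd (Nat.pos_of_ne_zero hi0) h6) (not_le.2 hi)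
          have h5 := geom_sum_mul (ζ⁻¹ ^ i) m
          have h6 : (ζ⁻¹ ^ i) ^ m = 1 := by
            rw [← pow_mul, mul_comm, pow_mul, inv_pow, hζm, inv_one, one_pow]
          rw [h6, sub_self] at h5
          exact (mul_eq_zero.1 h5).resolve_right (sub_ne_zero.2 h4)
        have h7 := congrArg (fun z : Acl k Ω => (z : Ω)) h2
        simpa using h7
      rw [h1, zero_mul]
    · intro h
      exact absurd (Finset.mem_range.2 hm) h
  have hsum2 : ∑ j ∈ Finset.range m, Y j = Y 0 := by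
    rw [Finset.sum_eq_single 0]
    · intro j hj hj0
      exact hY0 j (Nat.pos_of_ne_zero hj0) (Finset.mem_range.1 hj)
    · intro h
      exact absurd (Finset.mem_range.2 hm) h
  have hm0 : (m : Ω) ≠ 0 := Nat.cast_ne_zero.2 hm.ne'
  have h1 : x = Y 0 / m := by
    rw [← hsum2, hsum, mul_div_cancel_left₀ _ hm0]
  have h2 : ι (Y 0) = Y 0 := by
    have := hY 0
    rw [pow_zero] at this
    rw [this]
    exact one_mul _
  rw [h1, map_div₀, h2, map_natCast]

/-- algebraic elements have finite orbits -/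
theorem ine_fin (F : Subfield Ω) (hF : ∀ x : Ω, IsAlgebraic F x) (ι : Ω ≃+* Ω)
    (hι : ∀ x ∈ F, ι x = x) (x : Ω) : ∃ m : ℕ, 0 < m ∧ (ι ^ m) x = x := by
  classical
  obtain ⟨p, hp, hpx⟩ := hF x
  have h1 : ∀ i : ℕ, (ι ^ i) x ∈ (p.rootSet Ω) := by
    intro i
    rw [mem_rootSet]
    refine ⟨hp, ?_⟩
    induction i with
    | zero => simpa using hpx
    | succ i ih =>
      have h2 : (ι ^ (i + 1)) x = ι ((ι ^ i) x) := by rw [pow_succ']; rfl
      let ι' : Ω →ₐ[F] Ω := { (ι : Ω →+* Ω) with commutes' := fun c => hι c c.2 }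
      have h3 : aeval (ι' ((ι ^ i) x)) p = ι' (aeval ((ι ^ i) x) p) :=
        aeval_algHom_apply ι' _ p
      rw [ih, map_zero] at h3
      rw [h2]
      exact h3
  have hfin := p.rootSet_finite Ω
  obtain ⟨i, _, j, _, hij, heq⟩ := Set.infinite_univ.exists_ne_map_eq_of_mapsTo (s := (Set.univ : Set ℕ))
    (f := fun i : ℕ => (ι ^ i) x) (fun i _ => h1 i) hfin
  rcases lt_or_gt_of_ne hij with h | h
  · refine ⟨j - i, by omega, ?_⟩
    apply (ι ^ i).injective
    have h2 : (ι ^ i) ((ι ^ (j - i)) x) = (ι ^ j) x := by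
      have : ι ^ j = ι ^ i * ι ^ (j - i) := by rw [← pow_add]; congr 1; omega
      rw [this]
      rfl
    rw [h2]
    exact heq.symm
  · refine ⟨i - j, by omega, ?_⟩
    apply (ι ^ j).injective
    have h2 : (ι ^ j) ((ι ^ (i - j)) x) = (ι ^ i) x := by
      have : ι ^ i = ι ^ j * ι ^ (i - j) := by rw [← pow_add]; congr 1; omega
      rw [this]
      rfl
    rw [h2]
    exact heq

end Pool.Agent.Helper82.SN
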