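import Pool.Agent.Helper14.BSC.All
import Pool.Agent.Helper82.SN.Fin
import Pool.Agent.Helper13.RG.Final

/-!
# The centralizer criterion in the notation of the rigidity theorem (part III)
-/

set_option autoImplicit false

namespace Pool.Agent.Helper82.SN

open Pool.Agent.Helper14.BSC Pool.Agent.Helper13.RG

/-- part III: a section is geometric iff it has a nontrivial centralizer over `kb`; two different
embeddings `φ, ψ : M → K` with the same image section force `s` to be geometric -/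
def ST_III : Prop :=
  ∀ (k K kb Ω : Type) [Field k] [NumberField k] [Field K] [Field kb] [Field Ω]
    [Algebra k K] [Algebra k kb] [Algebra kb Ω] [Algebra k Ω] [Algebra K Ω]
    [IsScalarTower k K Ω] [IsScalarTower k kb Ω]
    [Algebra.IsAlgebraic K Ω] [IsAlgClosure k kb] [IsAlgClosed Ω],
    (∃ t : K, Transcendental k t ∧ Algebra.IsAlgebraic (IntermediateField.adjoin k {t}) K) →
    ∀ s : (kb ≃ₐ[k] kb) →* (Ω ≃ₐ[K] Ω), Gen.IsSection s →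
      ((∃ O, GeoAt s O) → ∃ γ : Ω ≃ₐ[kb] Ω, γ ≠ 1 ∧ ∀ (g : kb ≃ₐ[k] kb) (x : Ω), γ (s g x) = s g (γ x)) ∧
      (∀ U : Subgroup (kb ≃ₐ[k] kb), IsOpen (U : Set (kb ≃ₐ[k] kb)) →
        (∃ γ : Ω ≃ₐ[kb] Ω, γ ≠ 1 ∧ ∀ g ∈ U, ∀ x : Ω, γ (s g x) = s g (γ x)) → ∃! O, GeoAt s O) ∧
      ∀ (M ΩM : Type) [Field M] [Field ΩM] [Algebra k M] [Algebra M ΩM] [Algebra kb ΩM]
        (φ ψ : M →ₐ[k] K), φ ≠ ψ →
        (∃ Φ Ψ : ΩM ≃ₐ[kb] Ω, (∀ m : M, Φ (algebraMap M ΩM m) = algebraMap K Ω (φ m)) ∧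
          (∀ m : M, Ψ (algebraMap M ΩM m) = algebraMap K Ω (ψ m)) ∧
          ∀ (g : kb ≃ₐ[k] kb) (x : ΩM), Φ.symm (s g (Φ x)) = Ψ.symm (s g (Ψ x))) → ∃! O, GeoAt s O

theorem sn_fg (k : Type) [Field k] [NumberField k] : (⊤ : IntermediateField ℚ k).FG :=
  IntermediateField.fg_top_iff.2 inferInstance

theorem st_III : ST_III := by
  intro k K kb Ω _ _ _ _ _ _ _ _ _ _ _ _ _ _ _ htr s hs
  have h32 : ∀ (U : Subgroup (kb ≃ₐ[k] kb)), IsOpen (U : Set (kb ≃ₐ[k] kb)) →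
      ∀ τ : Ω ≃ₐ[kb] Ω, τ ≠ 1 → (∀ g ∈ U, ∀ x : Ω, τ (s g x) = s g (τ x)) → ∃! O, GeoAt s O := by
    intro U hU τ hτ hc
    exact sn_gen1 all_KUM all_ONE all_IFD all_UNI all_ALG all_EXTW all_BOT (sn_fg k) htr s hs U hU τ hτ hc
  refine ⟨?_, ?_, ?_⟩
  · rintro ⟨O, hO⟩
    refine sn_gen2 all_KUM all_BOT htr s hs ⟨O, hO, ?_⟩
    intro O' hO'
    exact all_UNI k K Ω (Gen.topD s hs) (sn_fg k) (fun g x => (s _).commutes x) O' O
      ((Gen.top_geo s hs O').1 hO') ((Gen.top_geo s hs O).1 hO)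
  · rintro U hU ⟨τ, hτ, hc⟩
    exact h32 U hU τ hτ hc
  · intro M ΩM _ _ _ _ _ φ ψ hne ⟨Φ, Ψ, hΦ, hΨ, hc⟩
    refine h32 ⊤ isOpen_univ (Ψ.symm.trans Φ) ?_ ?_
    · intro h
      apply hne
      apply AlgHom.ext
      intro m
      apply (algebraMap K Ω).injective
      rw [← hΦ, ← hΨ]
      have h1 := congrArg (fun τ : Ω ≃ₐ[kb] Ω => τ (Ψ (algebraMap M ΩM m))) h
      have h2 : Φ (Ψ.symm (Ψ (algebraMap M ΩM m))) = Ψ (algebraMap M ΩM m) := h1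
      rwa [AlgEquiv.symm_apply_apply] at h2
    · intro g _ x
      have h1 := hc g (Ψ.symm x)
      rw [AlgEquiv.apply_symm_apply] at h1
      show Φ (Ψ.symm (s g x)) = s g (Φ (Ψ.symm x))
      rw [← h1, AlgEquiv.apply_symm_apply]

end Pool.Agent.Helper82.SN
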