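import Pool.Agent.Helper82.SN.Conj2
import Pool.Agent.Helper96.BSC.ALG
import Pool.Agent.Helper37.BSC.RES
import Pool.Agent.Helper18.BSC.HEN

/-!
# Valuations of `Ω` with residue field `Acl k Ω` and value group of rank one
-/

set_option autoImplicit false

namespace Pool.Agent.Helper82.SN

open Pool.Agent.Helper14.BSC Polynomial

variable {k Ω : Type} [Field k] [Field Ω] [Algebra k Ω]

/-- `Ω` is algebraic over every intermediate field containing `t` -/
theorem val_alg {K : Type} [Field K] [Algebra k K] [Algebra K Ω] [IsScalarTower k K Ω]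
    [Algebra.IsAlgebraic K Ω]
    (htr : ∃ t : K, Transcendental k t ∧ Algebra.IsAlgebraic (IntermediateField.adjoin k {t}) K)
    (t : Ω) (ht : Transcendental k t) (F : IntermediateField (Acl k Ω) Ω) (htF : t ∈ F) :
    Algebra.IsAlgebraic F Ω := by
  obtain ⟨t0, _, ht0⟩ := htr
  have h1 := alg_dep t0 ht0 t ht
  have hsub : ∀ x ∈ Algebra.adjoin k {t}, x ∈ F := by
    intro x hx
    induction hx using Algebra.adjoin_induction with
    | mem y hy => rw [Set.mem_singleton_iff] at hy; rw [hy]; exact htF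
    | algebraMap c =>
      have : algebraMap k Ω c = algebraMap (Acl k Ω) Ω (algebraMap k (Acl k Ω) c) := rfl
      rw [this]
      exact algebraMap_mem F _
    | add a b _ _ ha hb => exact add_mem ha hb
    | mul a b _ _ ha hb => exact mul_mem ha hb
  let i : Algebra.adjoin k {t} →+* F :=
    (algebraMap (Algebra.adjoin k {t}) Ω).codRestrict F (fun x => hsub x x.2)
  let _ : Algebra (Algebra.adjoin k {t}) F := i.toAlgebra
  have _ : IsScalarTower (Algebra.adjoin k {t}) F Ω := IsScalarTower.of_algebraMap_eq (fun c => rfl)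
  refine ⟨fun x => (h1.isAlgebraic x).extendScalars ?_⟩
  intro a b hab
  have h2 := congrArg (fun z : F => (z : Ω)) hab
  exact Subtype.ext h2

theorem val_unit (W : ValuationSubring Ω) (hk : ∀ c : k, algebraMap k Ω c ∈ W) (a : Acl k Ω)
    (ha : a ≠ 0) : W.valuation (a : Ω) = 1 := by
  refine res_valg1 W hk _ (mem_algebraicClosure_iff.1 a.2) (fun h => ha (Subtype.ext h))

/-- the valuation of a polynomial in an element of the maximal ideal -/
theorem val_poly (W : ValuationSubring Ω) (hk : ∀ c : k, algebraMap k Ω c ∈ W) (y : Ω)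
    (hy : W.valuation y < 1) (P : (Acl k Ω)[X]) (hP : P ≠ 0) :
    W.valuation (aeval y P) = W.valuation y ^ P.natTrailingDegree := by
  classical
  set m := P.natTrailingDegree with hm
  have h0 : P.coeff m ≠ 0 := by
    rw [hm]
    exact P.trailingCoeff_nonzero_iff_nonzero.2 hP
  have h1 : P = X ^ m * (P /ₘ X ^ m) := by
    have hd : X ^ m ∣ P := X_pow_dvd_iff.2 (fun d hd => coeff_eq_zero_of_lt_natTrailingDegree hd)
    have := (modByMonic_eq_zero_iff_dvd (monic_X_pow m)).2 hd
    have h2 := modByMonic_add_div P (X ^ m : (Acl k Ω)[X])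
    rw [this, zero_add] at h2
    exact h2.symm
  set Q := P /ₘ X ^ m with hQ
  have hQ0 : Q.coeff 0 ≠ 0 := by
    rw [h1, coeff_X_pow_mul', if_pos le_rfl, Nat.sub_self] at h0
    exact h0
  have hyW : y ∈ W := (W.valuation_le_one_iff _).1 hy.le
  have h2 : aeval y Q = (Q.coeff 0 : Ω) + y * aeval y Q.divX := by
    conv_lhs => rw [← divX_mul_X_add Q]
    rw [map_add, map_mul, aeval_X, aeval_C]
    rw [add_comm, mul_comm]
    rfl
  have hAW : ∀ a : Acl k Ω, (a : Ω) ∈ W := fun a =>
    res_valg W hk _ (mem_algebraicClosure_iff.1 a.2)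
  have h3 : aeval y Q.divX ∈ W := by
    rw [aeval_eq_sum_range]
    refine sum_mem (fun i _ => ?_)
    rw [Algebra.smul_def]
    exact mul_mem (hAW _) (pow_mem hyW _)
  have h4 : W.valuation (y * aeval y Q.divX) < 1 := by
    rw [map_mul]
    calc W.valuation y * W.valuation (aeval y Q.divX) ≤ W.valuation y * 1 := by
          apply mul_le_mul_right
          exact (W.valuation_le_one_iff _).2 h3
      _ < 1 := by rw [mul_one]; exact hy
  have h5 : W.valuation (aeval y Q) = 1 := by
    rw [h2, Valuation.map_add_eq_of_lt_left _ (by rw [val_unit W hk _ hQ0]; exact h4),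
      val_unit W hk _ hQ0]
  rw [h1, map_mul, map_pow, aeval_X, map_mul, map_pow, h5, mul_one]

theorem val_poly_ne (W : ValuationSubring Ω) (hk : ∀ c : k, algebraMap k Ω c ∈ W) (y : Ω)
    (hy : W.valuation y < 1) (hy0 : y ≠ 0) (P : (Acl k Ω)[X]) (hP : P ≠ 0) :
    aeval y P ≠ 0 := by
  intro h
  have h1 := val_poly W hk y hy P hP
  rw [h, map_zero] at h1
  exact pow_ne_zero _ ((Valuation.ne_zero_iff _).2 hy0) h1.symm

/-- elements of valuation in `(0,1)` are transcendental -/
theorem val_tr (W : ValuationSubring Ω) (hk : ∀ c : k, algebraMap k Ω c ∈ W) (y : Ω)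
    (hy : W.valuation y < 1) (hy0 : y ≠ 0) : Transcendental (Acl k Ω) y := by
  rintro ⟨P, hP, hP0⟩
  exact val_poly_ne W hk y hy hy0 P hP hP0

/-- the valuation of the elements of `Acl(y)` -/
theorem val_frac (W : ValuationSubring Ω) (hk : ∀ c : k, algebraMap k Ω c ∈ W) (y : Ω)
    (hy : W.valuation y < 1) (hy0 : y ≠ 0) (x : Ω) (hx : x ∈ IntermediateField.adjoin (Acl k Ω) {y})
    (hx0 : x ≠ 0) : ∃ p q : ℕ, W.valuation x * W.valuation y ^ p = W.valuation y ^ q := by
  obtain ⟨P, Q, rfl⟩ := (IntermediateField.mem_adjoin_simple_iff (Acl k Ω) x).1 hx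
  have hP : P ≠ 0 := by
    rintro rfl
    apply hx0
    rw [map_zero, zero_div]
  have hQ : Q ≠ 0 := by
    rintro rfl
    apply hx0
    rw [map_zero, div_zero]
  refine ⟨Q.natTrailingDegree, P.natTrailingDegree, ?_⟩
  rw [← val_poly W hk y hy P hP, ← val_poly W hk y hy Q hQ, map_div₀]
  have h1 : W.valuation (aeval y Q) ≠ 0 :=
    (Valuation.ne_zero_iff _).2 (val_poly_ne W hk y hy hy0 Q hQ)
  exact div_mul_cancel₀ _ h1

/-- the value group is torsion over the group generated by the value of `t` -/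
theorem val_torsion (W : ValuationSubring Ω) (hk : ∀ c : k, algebraMap k Ω c ∈ W) (t : Ω)
    (ht : W.valuation t < 1) (ht0 : t ≠ 0)
    (halg : Algebra.IsAlgebraic (IntermediateField.adjoin (Acl k Ω) {t}) Ω) (y : Ω) (hy0 : y ≠ 0) :
    ∃ n p q : ℕ, 0 < n ∧ W.valuation y ^ n * W.valuation t ^ p = W.valuation t ^ q := by
  classical
  obtain ⟨f, hf, hfy⟩ := halg.isAlgebraic y
  have hne : f.support.Nonempty := support_nonempty.2 hf
  obtain ⟨i0, hi0, hmax⟩ := f.support.exists_max_image
    (fun i => W.valuation ((f.coeff i : Ω) * y ^ i)) hne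
  have hci0 : f.coeff i0 ≠ 0 := mem_support_iff.1 hi0
  have hvt : W.valuation t ≠ 0 := (Valuation.ne_zero_iff _).2 ht0
  have hvy : W.valuation y ≠ 0 := (Valuation.ne_zero_iff _).2 hy0
  have hcΩ : ∀ i, f.coeff i ≠ 0 → (f.coeff i : Ω) ≠ 0 := fun i hi h => hi (Subtype.ext h)
  obtain ⟨j, hj, hji, hjeq⟩ : ∃ j ∈ f.support, j ≠ i0 ∧
      W.valuation ((f.coeff j : Ω) * y ^ j) = W.valuation ((f.coeff i0 : Ω) * y ^ i0) := by
    by_contra hcon
    push Not at hcon
    have hsum : ∑ i ∈ f.support, (f.coeff i : Ω) * y ^ i = 0 := by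
      rw [← hfy, aeval_eq_sum_range]
      have hsub : f.support ⊆ Finset.range (f.natDegree + 1) := supp_subset_range_natDegree_succ
      rw [← Finset.sum_subset hsub]
      · apply Finset.sum_congr rfl
        intro i _
        rw [Algebra.smul_def]
        rfl
      · intro i _ hi
        rw [notMem_support_iff.1 hi, zero_smul]
    rw [← Finset.add_sum_erase _ _ hi0] at hsum
    have hv0 : W.valuation ((f.coeff i0 : Ω) * y ^ i0) ≠ 0 := by
      rw [Valuation.ne_zero_iff]
      exact mul_ne_zero (hcΩ _ hci0) (pow_ne_zero _ hy0)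
    have hlt : W.valuation (∑ i ∈ f.support.erase i0, (f.coeff i : Ω) * y ^ i) <
        W.valuation ((f.coeff i0 : Ω) * y ^ i0) := by
      apply Valuation.map_sum_lt _ hv0
      intro i hi
      rw [Finset.mem_erase] at hi
      exact lt_of_le_of_ne (hmax i hi.2) (hcon i hi.2 hi.1)
    have h1 := Valuation.map_add_eq_of_lt_left W.valuation hlt
    rw [hsum, map_zero] at h1
    exact hv0 h1.symm
  obtain ⟨p1, q1, h1⟩ := val_frac W hk t ht ht0 (f.coeff i0 : Ω) (f.coeff i0).2 (hcΩ _ hci0)
  obtain ⟨p2, q2, h2⟩ := val_frac W hk t ht ht0 (f.coeff j : Ω) (f.coeff j).2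
    (hcΩ _ (mem_support_iff.1 hj))
  rw [map_mul, map_mul, map_pow, map_pow] at hjeq
  -- v(c_j) v(y)^j = v(c_i0) v(y)^i0
  have h3 : W.valuation t ^ (q2 + p1) * W.valuation y ^ j = W.valuation t ^ (q1 + p2) * W.valuation y ^ i0 := by
    calc W.valuation t ^ (q2 + p1) * W.valuation y ^ j
        = (W.valuation t ^ q2) * W.valuation t ^ p1 * W.valuation y ^ j := by rw [pow_add]
      _ = (W.valuation (f.coeff j : Ω) * W.valuation t ^ p2) * W.valuation t ^ p1 * W.valuation y ^ j := by
          rw [h2]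
      _ = (W.valuation (f.coeff j : Ω) * W.valuation y ^ j) * (W.valuation t ^ p2 * W.valuation t ^ p1) := by
          ac_rfl
      _ = (W.valuation (f.coeff i0 : Ω) * W.valuation y ^ i0) * (W.valuation t ^ p2 * W.valuation t ^ p1) := by
          rw [hjeq]
      _ = (W.valuation (f.coeff i0 : Ω) * W.valuation t ^ p1) * W.valuation t ^ p2 * W.valuation y ^ i0 := by
          ac_rfl
      _ = W.valuation t ^ (q1 + p2) * W.valuation y ^ i0 := by rw [h1, pow_add]
  rcases lt_or_gt_of_ne hji with hlt | hlt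
  · refine ⟨i0 - j, q1 + p2, q2 + p1, by omega, ?_⟩
    have h4 : W.valuation y ^ i0 = W.valuation y ^ (i0 - j) * W.valuation y ^ j := by
      rw [← pow_add]; congr 1; omega
    rw [h4] at h3
    have h5 : W.valuation y ^ j ≠ 0 := pow_ne_zero _ hvy
    apply mul_right_cancel₀ h5
    rw [h3]
    ac_rfl
  · refine ⟨j - i0, q2 + p1, q1 + p2, by omega, ?_⟩
    have h4 : W.valuation y ^ j = W.valuation y ^ (j - i0) * W.valuation y ^ i0 := by
      rw [← pow_add]; congr 1; omega
    rw [h4] at h3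
    have h5 : W.valuation y ^ i0 ≠ 0 := pow_ne_zero _ hvy
    apply mul_right_cancel₀ h5
    rw [← h3]
    ac_rfl

end Pool.Agent.Helper82.SN
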